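import Pool.Agent.L5helper86.UL.Prob

/-!
# Generalized Wagstaff numbers in a random base: definitions

`qs p b n` is the value of `1 - b + b² - … + b^(n-1)` modulo `p`; for odd `n` this is `(b^n + 1)/(b + 1)`.
-/

set_option autoImplicit false

namespace Pool.Agent.L5helper86.RB

open Finset

/-- the value of `1 - b + b² - … + b^(n-1)` modulo `p` -/
def qs (p b n : ℕ) : ZMod p := ∑ i ∈ range n, (-(b : ZMod p)) ^ i

/-- the residues modulo `p` at which `1 - b + b² - … + b^(n-1)` vanishes -/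
def rts (p n : ℕ) : Finset ℕ := (range p).filter fun b => qs p b n = 0

/-- no prime `p ≤ z` divides the value at the system of bases `b` -/
def Sv (z : ℝ) (b : ℕ → ℕ) (n : ℕ) : Prop := ∀ p : ℕ, p.Prime → (p : ℝ) ≤ z → qs p (b p) n ≠ 0

/-- the primes up to `z` -/
noncomputable def pz (z : ℝ) : Finset ℕ := (Icc 1 ⌊z⌋₊).filter Nat.Prime

lemma mem_pz {z : ℝ} {p : ℕ} : p ∈ pz z ↔ p.Prime ∧ (p : ℝ) ≤ z := by
  unfold pz
  rw [mem_filter, mem_Icc]
  constructor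
  · rintro ⟨⟨h1, h2⟩, h3⟩
    exact ⟨h3, (Nat.le_floor_iff' h3.ne_zero).1 h2⟩
  · rintro ⟨h1, h2⟩
    exact ⟨⟨h1.one_lt.le, (Nat.le_floor_iff' h1.ne_zero).2 h2⟩, h1⟩

/-- the probability of `Sv`, for an odd prime `n` -/
noncomputable def Pn (z : ℝ) (n : ℕ) : ℝ := ∏ p ∈ pz z, (1 - (#(rts p n) : ℝ) / p)

/-- the odd primes in `(N, 2N]` -/
def op (N : ℕ) : Finset ℕ := (Ioc N (2 * N)).filter fun n => n.Prime ∧ n ≠ 2

end Pool.Agent.L5helper86.RB
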