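import Pool.Agent.L5helper86.RB.Ass

/-!
# Random base: all levels at once
-/

set_option autoImplicit false

open Finset MeasureTheory ProbabilityTheory Filter Topology

namespace Pool.Agent.L5helper86.RB

open Pool.Agent.L5helper86.UL (Sys Dep)

lemma EE_OP' (θ : ℝ) (x : ℕ) : EE θ OP x = ∑ n ∈ range (x + 1), OP.indicator (fun n : ℕ => Pn (Real.exp (θ * n)) n) n :=
  EE_eq θ OP x

lemma EE_tendsto {θ : ℝ} (hθ : 0 < θ) : Tendsto (fun x : ℕ => EE θ OP x) atTop atTop := by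
  obtain ⟨c, hc, x0, h⟩ := EE_lower hθ
  have h1 : Tendsto (fun x : ℕ => c * Real.log x) atTop atTop :=
    (Real.tendsto_log_atTop.comp tendsto_natCast_atTop_atTop).const_mul_atTop hc
  refine tendsto_atTop_mono' atTop ?_ h1
  filter_upwards [eventually_ge_atTop x0] with x hx
  exact h x hx

/-- the ratio of the expected numbers -/
theorem EE_ratio
    (hratio : ∀ θ θ' : ℝ, 0 < θ → θ < θ' → ∀ ε : ℝ, 0 < ε → ∃ n0 : ℕ, ∀ n : ℕ, n0 ≤ n → n.Prime → n ≠ 2 →
      |Pn (Real.exp (θ' * n)) n - θ / θ' * Pn (Real.exp (θ * n)) n| ≤ ε * Pn (Real.exp (θ * n)) n)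
    {θ θ' : ℝ} (hθ : 0 < θ) (hθ' : θ < θ') :
    Tendsto (fun x : ℕ => EE θ' OP x / EE θ OP x) atTop (𝓝 (θ / θ')) := by
  rw [Metric.tendsto_atTop]
  intro ε hε
  obtain ⟨n0, hn0⟩ := hratio θ θ' hθ hθ' (ε / 2) (by positivity)
  have hθ'0 : 0 < θ' := hθ.trans hθ'
  have hq : θ / θ' ≤ 1 := by
    rw [div_le_one hθ'0]
    exact hθ'.le
  have hq0 : 0 ≤ θ / θ' := by positivity
  have hev := (EE_tendsto hθ).eventually_gt_atTop (max 0 (2 * (2 * n0) / ε))
  obtain ⟨x1, hx1⟩ := eventually_atTop.1 hev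
  refine ⟨x1, fun x hx => ?_⟩
  have h1 := hx1 x hx
  have hE0 : 0 < EE θ OP x := lt_of_le_of_lt (le_max_left _ _) h1
  have hE1 : 2 * (2 * n0) / ε < EE θ OP x := lt_of_le_of_lt (le_max_right _ _) h1
  rw [div_lt_iff₀ hε] at hE1
  rw [Real.dist_eq]
  have e : EE θ' OP x / EE θ OP x - θ / θ' = (EE θ' OP x - θ / θ' * EE θ OP x) / EE θ OP x := by
    field_simp
  rw [e, abs_div, abs_of_pos hE0, div_lt_iff₀ hE0]
  have key : |EE θ' OP x - θ / θ' * EE θ OP x| ≤ 2 * n0 + ε / 2 * EE θ OP x := by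
    rw [EE_OP' θ' x, EE_OP' θ x, mul_sum, ← sum_sub_distrib]
    refine (abs_sum_le_sum_abs _ _).trans ?_
    have hterm : ∀ n ∈ range (x + 1), |OP.indicator (fun n : ℕ => Pn (Real.exp (θ' * n)) n) n -
        θ / θ' * OP.indicator (fun n : ℕ => Pn (Real.exp (θ * n)) n) n| ≤
        (if n < n0 then 2 else 0) + ε / 2 * OP.indicator (fun n : ℕ => Pn (Real.exp (θ * n)) n) n := by
      intro n _
      by_cases hn : n ∈ OP
      · rw [Set.indicator_of_mem hn, Set.indicator_of_mem hn]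
        have ha : 0 ≤ Pn (Real.exp (θ * n)) n := Pn_nonneg
        have hb : 0 ≤ Pn (Real.exp (θ' * n)) n := Pn_nonneg
        have ha1 : Pn (Real.exp (θ * n)) n ≤ 1 := Pn_le_one'
        have hb1 : Pn (Real.exp (θ' * n)) n ≤ 1 := Pn_le_one'
        split_ifs with h2
        · rw [abs_le]
          have h3 : 0 ≤ θ / θ' * Pn (Real.exp (θ * n)) n := mul_nonneg hq0 ha
          have h4 : θ / θ' * Pn (Real.exp (θ * n)) n ≤ 1 := by nlinarith
          have h5 : 0 ≤ ε / 2 * Pn (Real.exp (θ * n)) n := by positivity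
          constructor <;> linarith
        · rw [zero_add]
          exact hn0 n (not_lt.1 h2) hn.1 hn.2
      · rw [Set.indicator_of_notMem hn, Set.indicator_of_notMem hn]
        split_ifs <;> simp
    refine (sum_le_sum hterm).trans ?_
    rw [sum_add_distrib, ← mul_sum]
    refine add_le_add ?_ le_rfl
    rw [← sum_filter, sum_const, nsmul_eq_mul, mul_comm]
    have h3 : #((range (x + 1)).filter fun n => n < n0) ≤ n0 := by
      calc _ ≤ #(range n0) := card_le_card fun n hn => mem_range.2 (mem_filter.1 hn).2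
        _ = n0 := card_range _
    have h4 : (#((range (x + 1)).filter fun n => n < n0) : ℝ) ≤ n0 := by exact_mod_cast h3
    linarith
  linarith

theorem EE_ratio_one
    (hratio : ∀ θ θ' : ℝ, 0 < θ → θ < θ' → ∀ ε : ℝ, 0 < ε → ∃ n0 : ℕ, ∀ n : ℕ, n0 ≤ n → n.Prime → n ≠ 2 →
      |Pn (Real.exp (θ' * n)) n - θ / θ' * Pn (Real.exp (θ * n)) n| ≤ ε * Pn (Real.exp (θ * n)) n)
    {θ : ℝ} (hθ : 0 < θ) :
    Tendsto (fun x : ℕ => EE θ OP x / EE 1 OP x) atTop (𝓝 (1 / θ)) := by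
  rcases lt_trichotomy θ 1 with h | h | h
  · have h1 := (EE_ratio hratio hθ h).inv₀ (by rw [div_one]; exact hθ.ne')
    rw [div_one] at h1
    rw [one_div]
    refine h1.congr fun x => ?_
    rw [inv_div]
  · subst h
    rw [one_div_one]
    refine (tendsto_const_nhds (x := (1 : ℝ))).congr' ?_
    filter_upwards [(EE_tendsto one_pos).eventually_gt_atTop 0] with x hx
    rw [div_self (ne_of_gt hx)]
  · exact EE_ratio hratio one_pos h

variable {Ω : Type} [MeasurableSpace Ω] {P : Measure Ω} {X : ℕ → Ω → ℕ}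

/-- almost surely, for every `θ` at once -/
theorem all_theta_lim
    (hratio : ∀ θ θ' : ℝ, 0 < θ → θ < θ' → ∀ ε : ℝ, 0 < ε → ∃ n0 : ℕ, ∀ n : ℕ, n0 ≤ n → n.Prime → n ≠ 2 →
      |Pn (Real.exp (θ' * n)) n - θ / θ' * Pn (Real.exp (θ * n)) n| ≤ ε * Pn (Real.exp (θ * n)) n)
    (h : Sys P X) : ∀ᵐ ω ∂P, ∀ θ : ℝ, 0 < θ →
    Tendsto (fun x : ℕ => (cnt θ (fun p => X p ω) OP x : ℝ) / EE 1 OP x) atTop (𝓝 (1 / θ)) := by
  have hS : ∀ n ∈ OP, n.Prime ∧ n ≠ 2 := fun n hn => hn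
  have h1 : ∀ᵐ ω ∂P, ∀ q : ℚ, 0 < q → Tendsto (fun x : ℕ => (cnt (q : ℝ) (fun p => X p ω) OP x : ℝ) / EE (q : ℝ) OP x)
      atTop (𝓝 1) := by
    rw [ae_all_iff]
    intro q
    by_cases hq : 0 < q
    · have hq' : (0 : ℝ) < q := by exact_mod_cast hq
      filter_upwards [law1 h hq'.le hS (div_OP hq')] with ω hω _
      exact hω
    · exact Eventually.of_forall fun ω h2 => absurd h2 hq
  filter_upwards [h1] with ω hω θ hθ
  have hq : ∀ q : ℚ, 0 < q → Tendsto (fun x : ℕ => (cnt (q : ℝ) (fun p => X p ω) OP x : ℝ) / EE 1 OP x) atTop (𝓝 (1 / (q : ℝ))) := by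
    intro q hq
    have hq' : (0 : ℝ) < q := by exact_mod_cast hq
    have h2 := (hω q hq).mul (EE_ratio_one hratio hq')
    rw [one_mul] at h2
    refine h2.congr' ?_
    filter_upwards [(EE_tendsto hq').eventually_gt_atTop 0] with x hx
    have hx' : EE (q : ℝ) OP x ≠ 0 := ne_of_gt hx
    field_simp
  rw [Metric.tendsto_atTop]
  intro ε hε
  -- rational numbers on both sides
  have hcont : ContinuousAt (fun t : ℝ => 1 / t) θ := by
    apply ContinuousAt.div continuousAt_const continuousAt_id hθ.ne'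
  obtain ⟨δ, hδ, hδ'⟩ := Metric.continuousAt_iff.1 hcont (ε / 2) (by positivity)
  obtain ⟨q1, hq1, hq1'⟩ := exists_rat_btwn (show max 0 (θ - δ) < θ from max_lt hθ (by linarith))
  obtain ⟨q2, hq2, hq2'⟩ := exists_rat_btwn (show θ < θ + δ by linarith)
  have hq1p : (0 : ℝ) < q1 := lt_of_le_of_lt (le_max_left _ _) hq1
  have hq1d : θ - δ < q1 := lt_of_le_of_lt (le_max_right _ _) hq1
  have hq2p : (0 : ℝ) < q2 := hθ.trans hq2
  have e1 := hδ' (show dist (q1 : ℝ) θ < δ by rw [Real.dist_eq, abs_lt]; constructor <;> linarith)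
  have e2 := hδ' (show dist (q2 : ℝ) θ < δ by rw [Real.dist_eq, abs_lt]; constructor <;> linarith)
  rw [Real.dist_eq, abs_lt] at e1 e2
  obtain ⟨x1, h3⟩ := Metric.tendsto_atTop.1 (hq q1 (by exact_mod_cast hq1p)) (ε / 2) (by positivity)
  obtain ⟨x2, h4⟩ := Metric.tendsto_atTop.1 (hq q2 (by exact_mod_cast hq2p)) (ε / 2) (by positivity)
  obtain ⟨x3, h5⟩ := eventually_atTop.1 ((EE_tendsto one_pos).eventually_gt_atTop 0)
  refine ⟨max x1 (max x2 x3), fun x hx => ?_⟩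
  have a1 := h3 x ((le_max_left _ _).trans hx)
  have a2 := h4 x ((le_max_left _ _).trans ((le_max_right _ _).trans hx))
  have a3 := h5 x ((le_max_right _ _).trans ((le_max_right _ _).trans hx))
  rw [Real.dist_eq, abs_lt] at a1 a2
  rw [Real.dist_eq, abs_lt]
  have m1 : (cnt θ (fun p => X p ω) OP x : ℝ) ≤ cnt (q1 : ℝ) (fun p => X p ω) OP x := by
    exact_mod_cast cnt_mono hq1'.le _ _ _
  have m2 : (cnt (q2 : ℝ) (fun p => X p ω) OP x : ℝ) ≤ cnt θ (fun p => X p ω) OP x := by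
    exact_mod_cast cnt_mono hq2.le _ _ _
  have n1 := div_le_div_of_nonneg_right m1 (le_of_lt a3)
  have n2 := div_le_div_of_nonneg_right m2 (le_of_lt a3)
  constructor
  · linarith [e2.1, a2.1]
  · linarith [e1.2, a1.2]

end Pool.Agent.L5helper86.RB
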