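import Pool.Agent.L5helper86.RB.Base

/-!
# Random base: upper bound of the expected number of survivors in a dyadic block
-/

set_option autoImplicit false

open Finset Filter Topology

namespace Pool.Agent.L5helper86.RB

theorem abs_dyad (s : Finset ℕ) (T : ℕ → ℝ) (D : ℕ → ℝ → ℝ) (hT : ∀ n ∈ s, 0 ≤ T n) (hD : ∀ n L, 0 ≤ D n L)
    (L0 M C K : ℝ) (hL0 : 1 ≤ L0) (hC : 0 ≤ C) (hM : 0 < M) (hK : 0 ≤ K)
    (H1 : ∀ L : ℝ, L0 ≤ L → L ≤ M → ∑ n ∈ s, D n L ≤ K / L ^ 2)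
    (H2 : ∀ L : ℝ, L0 ≤ L → L ≤ M → ∀ n ∈ s, D n L ≤ 1 → Real.log (M / L) - C ≤ T n) :
    ∑ n ∈ s, Real.exp (-T n) ≤ Real.exp C * (L0 / M) * (#s + 2 * K / L0 ^ 2) := by
  classical
  have hL0p : 0 < L0 := by linarith
  obtain ⟨J, hJ⟩ := pow_unbounded_of_one_lt (M / L0) (one_lt_two : (1 : ℝ) < 2)
  have hJ' : M < 2 ^ J * L0 := by rwa [div_lt_iff₀ hL0p] at hJ
  have hge : ∀ i : ℕ, L0 ≤ 2 ^ i * L0 := fun i => by
    have : (1 : ℝ) ≤ 2 ^ i := one_le_pow₀ (by norm_num)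
    nlinarith
  set U : Finset ℕ := (range J).filter fun i => 2 ^ i * L0 ≤ M with hU
  have hn : ∀ n ∈ s, Real.exp (-T n) ≤ Real.exp C * (L0 / M) * (1 + ∑ i ∈ U, 2 ^ i * D n (2 ^ i * L0)) := by
    intro n hn
    have hex : ∃ j : ℕ, M < 2 ^ j * L0 ∨ D n (2 ^ j * L0) ≤ 1 := ⟨J, Or.inl hJ'⟩
    obtain ⟨j, hj, hmin⟩ : ∃ j : ℕ, (M < 2 ^ j * L0 ∨ D n (2 ^ j * L0) ≤ 1) ∧
        ∀ i < j, ¬ (M < 2 ^ i * L0 ∨ D n (2 ^ i * L0) ≤ 1) :=
      ⟨Nat.find hex, Nat.find_spec hex, fun i hi => Nat.find_min hex hi⟩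
    have hjJ : j ≤ J := by
      by_contra hlt
      exact hmin J (not_le.1 hlt) (Or.inl hJ')
    have h2j : (2 : ℝ) ^ j ≤ 1 + ∑ i ∈ U, 2 ^ i * D n (2 ^ i * L0) := by
      have e : (2 : ℝ) ^ j = 1 + ∑ i ∈ range j, 2 ^ i := by
        rw [geom_sum_eq (by norm_num)]
        norm_num
      rw [e]
      refine add_le_add le_rfl ?_
      calc ∑ i ∈ range j, (2 : ℝ) ^ i ≤ ∑ i ∈ range j, 2 ^ i * D n (2 ^ i * L0) := by
            refine sum_le_sum fun i hi => ?_
            have h3 := hmin i (mem_range.1 hi)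
            push Not at h3
            have h4 : (0 : ℝ) < 2 ^ i := by positivity
            nlinarith [h3.2]
        _ ≤ _ := by
            refine sum_le_sum_of_subset_of_nonneg (fun i hi => ?_) fun i _ _ => mul_nonneg (by positivity) (hD _ _)
            have hij := mem_range.1 hi
            have h3 := hmin i hij
            push Not at h3
            exact mem_filter.2 ⟨mem_range.2 (by omega), h3.1⟩
    have hexp : Real.exp (-T n) ≤ Real.exp C * (2 ^ j * L0 / M) := by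
      rcases hj with h3 | h3
      · have h4 : Real.exp (-T n) ≤ 1 := Real.exp_le_one_iff.2 (by linarith [hT n hn])
        have h5 : 1 ≤ Real.exp C := Real.one_le_exp hC
        have h6 : 1 ≤ 2 ^ j * L0 / M := by
          rw [le_div_iff₀ hM]
          linarith
        nlinarith
      · by_cases h7 : 2 ^ j * L0 ≤ M
        · have h4 := H2 _ (hge j) h7 n hn h3
          have h5 : (0 : ℝ) < 2 ^ j * L0 := by positivity
          calc Real.exp (-T n) ≤ Real.exp (C - Real.log (M / (2 ^ j * L0))) := Real.exp_le_exp.2 (by linarith)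
            _ = Real.exp C * (2 ^ j * L0 / M) := by
                rw [Real.exp_sub, Real.exp_log (by positivity)]
                field_simp
        · have h4 : Real.exp (-T n) ≤ 1 := Real.exp_le_one_iff.2 (by linarith [hT n hn])
          have h5 : 1 ≤ Real.exp C := Real.one_le_exp hC
          have h6 : 1 ≤ 2 ^ j * L0 / M := by
            rw [le_div_iff₀ hM]
            linarith
          nlinarith
    calc Real.exp (-T n) ≤ Real.exp C * (2 ^ j * L0 / M) := hexp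
      _ = Real.exp C * (L0 / M) * 2 ^ j := by ring
      _ ≤ _ := mul_le_mul_of_nonneg_left h2j (by positivity)
  calc ∑ n ∈ s, Real.exp (-T n) ≤ ∑ n ∈ s, Real.exp C * (L0 / M) * (1 + ∑ i ∈ U, 2 ^ i * D n (2 ^ i * L0)) := sum_le_sum hn
    _ = Real.exp C * (L0 / M) * (#s + ∑ i ∈ U, 2 ^ i * ∑ n ∈ s, D n (2 ^ i * L0)) := by
        rw [← mul_sum, sum_add_distrib, sum_const, nsmul_eq_mul, mul_one, sum_comm]
        congr 2
        refine sum_congr rfl fun i _ => ?_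
        rw [mul_sum]
    _ ≤ Real.exp C * (L0 / M) * (#s + ∑ i ∈ U, (1 / 2 : ℝ) ^ i * (K / L0 ^ 2)) := by
        apply mul_le_mul_of_nonneg_left _ (by positivity)
        refine add_le_add le_rfl (sum_le_sum fun i hi => ?_)
        have h3 := H1 (2 ^ i * L0) (hge i) (mem_filter.1 hi).2
        have h4 : (0 : ℝ) < 2 ^ i := by positivity
        calc (2 : ℝ) ^ i * ∑ n ∈ s, D n (2 ^ i * L0) ≤ 2 ^ i * (K / (2 ^ i * L0) ^ 2) := mul_le_mul_of_nonneg_left h3 h4.le
          _ = (1 / 2 : ℝ) ^ i * (K / L0 ^ 2) := by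
              rw [one_div, inv_pow]
              field_simp
    _ ≤ Real.exp C * (L0 / M) * (#s + 2 * K / L0 ^ 2) := by
        apply mul_le_mul_of_nonneg_left _ (by positivity)
        refine add_le_add le_rfl ?_
        rw [← sum_mul]
        have h5 : ∑ i ∈ U, (1 / 2 : ℝ) ^ i ≤ 2 := by
          calc ∑ i ∈ U, (1 / 2 : ℝ) ^ i ≤ ∑ i ∈ range J, (1 / 2 : ℝ) ^ i :=
                sum_le_sum_of_subset_of_nonneg (filter_subset _ _) fun _ _ _ => by positivity
            _ ≤ 2 := by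
                have h6 := Summable.sum_le_tsum (range J) (fun i _ => by positivity) summable_geometric_two
                rwa [tsum_geometric_two] at h6
        have h6 : 0 ≤ K / L0 ^ 2 := by positivity
        calc (∑ i ∈ U, (1 / 2 : ℝ) ^ i) * (K / L0 ^ 2) ≤ 2 * (K / L0 ^ 2) := mul_le_mul_of_nonneg_right h5 h6
          _ = 2 * K / L0 ^ 2 := by ring

theorem block_upper
    (hscales : ∀ θ : ℝ, 0 < θ → ∃ C : ℝ, 0 < C ∧ ∃ D : ℕ → ℕ → ℝ → ℝ, (∀ N n L, 0 ≤ D N n L) ∧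
      ∀ᶠ N : ℕ in atTop, ∀ L : ℝ, 3 * Real.log (2 * N) ≤ L → L ≤ θ * N → (∑ n ∈ op N, D N n L ≤ C * N / L ^ 2) ∧
        ∀ n ∈ op N, D N n L ≤ 1 → Real.log (θ * N / L) - C ≤
          ∑ p ∈ (pz (Real.exp (θ * N))).filter (fun p => p % n = 1), ((n : ℝ) - 1) / p)
    (hexp : ∀ {n : ℕ}, n.Prime → n ≠ 2 → ∀ z : ℝ,
      Pn z n ≤ Real.exp (-(∑ p ∈ (pz z).filter (fun p => p % n = 1), ((n : ℝ) - 1) / p)))
    (hop : ∃ C : ℝ, 0 < C ∧ ∀ N : ℕ, 2 ≤ N → (#(op N) : ℝ) ≤ C * (N / Real.log N))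
    (θ : ℝ) (hθ : 0 < θ) : ∃ C : ℝ, 0 < C ∧ ∃ N0 : ℕ, ∀ N : ℕ, N0 ≤ N → ∑ n ∈ op N, Pn (Real.exp (θ * n)) n ≤ C := by
  obtain ⟨C, hC, D, hD, hev⟩ := hscales θ hθ
  obtain ⟨C1, hC1, hop⟩ := hop
  obtain ⟨N1, hN1⟩ := eventually_atTop.1 hev
  refine ⟨6 * Real.exp C * (C1 + C) / θ, by positivity, max N1 2, fun N hN => ?_⟩
  have hNN : N1 ≤ N := (le_max_left _ _).trans hN
  have hN2 : 2 ≤ N := (le_max_right _ _).trans hN
  have hN2' : (2 : ℝ) ≤ N := by exact_mod_cast hN2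
  have hlog : 0 < Real.log N := Real.log_pos (by linarith)
  have hlog2 : Real.log (2 * N) ≤ 2 * Real.log N := by
    rw [Real.log_mul (by norm_num) (by positivity)]
    have : Real.log 2 ≤ Real.log N := Real.log_le_log (by norm_num) hN2'
    linarith
  have hlog3 : 1 ≤ Real.log (2 * N) := by
    rw [Real.le_log_iff_exp_le (by positivity)]
    have := Real.exp_one_lt_d9
    linarith
  have hlog4 : Real.log N ≤ Real.log (2 * N) := Real.log_le_log (by positivity) (by linarith)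
  set T : ℕ → ℝ := fun n => ∑ p ∈ (pz (Real.exp (θ * N))).filter (fun p => p % n = 1), ((n : ℝ) - 1) / p with hTd
  have hop1 : ∀ n ∈ op N, (N < n ∧ n ≤ 2 * N) ∧ n.Prime ∧ n ≠ 2 := by
    intro n hn
    unfold op at hn
    rw [mem_filter, mem_Ioc] at hn
    exact hn
  have hT : ∀ n ∈ op N, 0 ≤ T n := by
    intro n hn
    refine sum_nonneg fun p _ => div_nonneg ?_ (Nat.cast_nonneg _)
    have : (1 : ℝ) ≤ n := by exact_mod_cast (hop1 n hn).2.1.one_lt.le
    linarith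
  have h1 := abs_dyad (op N) T (D N) hT (hD N) (3 * Real.log (2 * N)) (θ * N) C (C * N) (by linarith) hC.le
    (by positivity) (by positivity) (fun L hL hLM => (hN1 N hNN L hL hLM).1) (fun L hL hLM => (hN1 N hNN L hL hLM).2)
  have h2 : ∑ n ∈ op N, Pn (Real.exp (θ * n)) n ≤ ∑ n ∈ op N, Real.exp (-T n) := by
    refine sum_le_sum fun n hn => ?_
    obtain ⟨⟨h3, _⟩, h4, h5⟩ := hop1 n hn
    refine (hexp h4 h5 _).trans (Real.exp_le_exp.2 (neg_le_neg ?_))
    refine sum_le_sum_of_subset_of_nonneg (fun p hp => ?_) fun p _ _ => div_nonneg ?_ (Nat.cast_nonneg _)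
    · rw [mem_filter, mem_pz] at hp ⊢
      refine ⟨⟨hp.1.1, hp.1.2.trans (Real.exp_le_exp.2 ?_)⟩, hp.2⟩
      exact mul_le_mul_of_nonneg_left (Nat.cast_le.2 (le_of_lt h3)) hθ.le
    · have : (1 : ℝ) ≤ n := by exact_mod_cast h4.one_lt.le
      linarith
  have h3 : (#(op N) : ℝ) + 2 * (C * N) / (3 * Real.log (2 * N)) ^ 2 ≤ (C1 + C) * (N / Real.log N) := by
    have h4 := hop N hN2
    have h5 : 2 * (C * N) / (3 * Real.log (2 * N)) ^ 2 ≤ C * (N / Real.log N) := by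
      rw [div_le_iff₀ (by positivity)]
      have h6 : Real.log N * 1 ≤ Real.log (2 * N) ^ 2 := by nlinarith
      have h7 : C * (N / Real.log N) * (3 * Real.log (2 * N)) ^ 2 = 9 * (C * N) * (Real.log (2 * N) ^ 2 / Real.log N) := by
        field_simp
        ring
      rw [h7]
      have h8 : 1 ≤ Real.log (2 * N) ^ 2 / Real.log N := by
        rw [le_div_iff₀ hlog]
        linarith
      have h9 : 0 ≤ C * N := by positivity
      nlinarith
    rw [add_mul]
    exact add_le_add h4 h5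
  calc ∑ n ∈ op N, Pn (Real.exp (θ * n)) n ≤ ∑ n ∈ op N, Real.exp (-T n) := h2
    _ ≤ Real.exp C * (3 * Real.log (2 * N) / (θ * N)) * (#(op N) + 2 * (C * N) / (3 * Real.log (2 * N)) ^ 2) := h1
    _ ≤ Real.exp C * (6 * Real.log N / (θ * N)) * ((C1 + C) * (N / Real.log N)) := by
        apply mul_le_mul _ h3 (by positivity) (by positivity)
        apply mul_le_mul_of_nonneg_left _ (Real.exp_pos _).le
        apply div_le_div_of_nonneg_right _ (by positivity)
        linarith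
    _ = 6 * Real.exp C * (C1 + C) / θ := by
        field_simp

end Pool.Agent.L5helper86.RB
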