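import Pool.Agent.L5helper86.UL.Prob

/-!
# Existence of independent uniform residues
-/

set_option autoImplicit false

open Finset MeasureTheory ProbabilityTheory

namespace Pool.Agent.L5helper86.RB

lemma uni_ne (p : ℕ) : (range (max p 1)).Nonempty := ⟨0, by simp⟩

/-- the uniform law on `{0, …, p - 1}` -/
noncomputable def uni (p : ℕ) : Measure ℕ := (PMF.uniformOfFinset (range (max p 1)) (uni_ne p)).toMeasure

instance (p : ℕ) : IsProbabilityMeasure (uni p) := by
  unfold uni
  infer_instance

lemma uni_real {p r : ℕ} (hp : p.Prime) (hr : r < p) : (uni p).real {r} = 1 / p := by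
  unfold uni Measure.real
  have hr' : r ∈ range (max p 1) := mem_range.2 (lt_max_of_lt_left hr)
  rw [PMF.toMeasure_apply_singleton _ _ (measurableSet_singleton r), PMF.uniformOfFinset_apply_of_mem (uni_ne p) hr']
  have h : max p 1 = p := max_eq_left hp.one_lt.le
  rw [card_range, h]
  simp

theorem exists_sys : UL.Sys (Measure.infinitePi uni) (fun (p : ℕ) (ω : ℕ → ℕ) => ω p) where
  prob := inferInstance
  meas := fun p => measurable_pi_apply p
  ind := by
    have h := iIndepFun_infinitePi (P := uni) (X := fun (_ : ℕ) (x : ℕ) => x) (fun _ => measurable_id)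
    exact h.precomp (g := fun p : Nat.Primes => (p : ℕ)) Subtype.coe_injective
  unif := by
    intro p r hp hr
    rw [← uni_real hp hr]
    have h := measurePreserving_eval_infinitePi uni p
    unfold Measure.real
    rw [← h.measure_preimage (measurableSet_singleton r).nullMeasurableSet]
    rfl

end Pool.Agent.L5helper86.RB
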