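import Pool.Agent.Cov.PNT
import Pool.Agent.L5helper86.RB.Base

/-! Project RB (helper86): the number of the odd primes in `(N, 2N]` (`pc_eq`, `primes_between` from the starting
library, `Pool.Agent.R463.EI2`). -/

set_option autoImplicit false

namespace Pool.Agent.L5helper86.RB

open Finset Filter

lemma pc_eq (n : ℕ) : Nat.primeCounting n = ((Icc 1 n).filter Nat.Prime).card := by
  rw [Nat.primeCounting, Nat.primeCounting', Nat.count_eq_card_filter_range]
  congr 1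
  ext p
  rw [mem_filter, mem_filter, mem_range, mem_Icc]
  constructor
  · rintro ⟨h1, h2⟩
    exact ⟨⟨h2.pos, by omega⟩, h2⟩
  · rintro ⟨h1, h2⟩
    exact ⟨by omega, h2⟩

/-- the primes between `y` and `2 y` -/
lemma primes_between : ∃ y0 : ℕ, ∀ y : ℕ, y0 ≤ y →
    (y : ℝ) / (2 * Real.log y) ≤ (((Ioc y (2 * y)).filter Nat.Prime).card : ℝ) := by
  have h1 := Pool.Agent.Cov.PNT.pi_tendsto
  have h2 : ∀ᶠ x : ℝ in atTop, 19 / 20 ≤ (Nat.primeCounting ⌊x⌋₊ : ℝ) * Real.log x / x :=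
    h1.eventually_const_le (by norm_num)
  have h3 : ∀ᶠ x : ℝ in atTop, (Nat.primeCounting ⌊x⌋₊ : ℝ) * Real.log x / x ≤ 21 / 20 :=
    h1.eventually_le_const (by norm_num)
  obtain ⟨x0, hx0⟩ := eventually_atTop.1 (h2.and h3)
  have hlogy : Tendsto (fun y : ℕ => Real.log (y : ℝ)) atTop atTop :=
    Real.tendsto_log_atTop.comp tendsto_natCast_atTop_atTop
  obtain ⟨y1, hy1⟩ := eventually_atTop.1 ((hlogy.eventually_ge_atTop 20).and
    (tendsto_natCast_atTop_atTop.eventually_ge_atTop (max x0 1)))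
  refine ⟨y1, fun y hy => ?_⟩
  obtain ⟨g1, g2⟩ := hy1 y hy
  have gx : x0 ≤ y := (le_max_left _ _).trans g2
  have gy : (1 : ℝ) ≤ y := (le_max_right _ _).trans g2
  have a1 := (hx0 y gx).2
  have a2 := (hx0 (2 * y) (by linarith)).1
  rw [Nat.floor_natCast] at a1
  rw [show (2 * (y : ℝ)) = ((2 * y : ℕ) : ℝ) by push_cast; ring, Nat.floor_natCast] at a2
  have hL : (0 : ℝ) < Real.log y := by linarith
  have hlog2 : Real.log ((2 * y : ℕ) : ℝ) ≤ 21 / 20 * Real.log y := by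
    push_cast
    rw [Real.log_mul (by norm_num) (by linarith)]
    have := Real.log_two_lt_d9
    linarith
  have hL2 : 0 < Real.log ((2 * y : ℕ) : ℝ) := by
    apply Real.log_pos
    push_cast
    linarith
  have e1 : Nat.primeCounting (2 * y) = Nat.primeCounting y + ((Ioc y (2 * y)).filter Nat.Prime).card := by
    rw [pc_eq, pc_eq, ← card_union_of_disjoint]
    · congr 1
      ext p
      simp only [mem_filter, mem_Icc, mem_union, mem_Ioc]
      constructor
      · rintro ⟨⟨b1, b2⟩, b3⟩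
        rcases Nat.lt_or_ge y p with b4 | b4
        · exact Or.inr ⟨⟨b4, b2⟩, b3⟩
        · exact Or.inl ⟨⟨b1, b4⟩, b3⟩
      · rintro (⟨⟨b1, b2⟩, b3⟩ | ⟨⟨b1, b2⟩, b3⟩)
        · exact ⟨⟨b1, by omega⟩, b3⟩
        · exact ⟨⟨by omega, b2⟩, b3⟩
    · rw [Finset.disjoint_left]
      intro p hp hp'
      simp only [mem_filter, mem_Icc, mem_Ioc] at hp hp'
      omega
  obtain ⟨A, hA⟩ : ∃ A : ℝ, A = (Nat.primeCounting y : ℝ) := ⟨_, rfl⟩
  obtain ⟨B, hB⟩ : ∃ B : ℝ, B = (((Ioc y (2 * y)).filter Nat.Prime).card : ℝ) := ⟨_, rfl⟩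
  have e2 : (Nat.primeCounting (2 * y) : ℝ) = A + B := by
    rw [e1, hA, hB]
    push_cast
    ring
  rw [e2] at a2
  rw [← hA] at a1
  rw [← hB]
  have hA0 : 0 ≤ A := by rw [hA]; exact Nat.cast_nonneg _
  have hB0 : 0 ≤ B := by rw [hB]; exact Nat.cast_nonneg _
  rw [div_le_iff₀ (by linarith)] at a1
  rw [le_div_iff₀ (by push_cast; linarith)] at a2
  rw [div_le_iff₀ (by linarith)]
  have a3 : (A + B) * Real.log ((2 * y : ℕ) : ℝ) ≤ (A + B) * (21 / 20 * Real.log y) :=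
    mul_le_mul_of_nonneg_left hlog2 (by linarith)
  push_cast at a2
  have a4 : 19 / 20 * (2 * (y : ℝ)) ≤ (A + B) * (21 / 20 * Real.log y) := a2.trans (by
    push_cast at a3
    exact a3)
  nlinarith

lemma op_eq {N : ℕ} (hN : 2 ≤ N) : op N = (Ioc N (2 * N)).filter Nat.Prime := by
  unfold op
  ext n
  simp only [mem_filter, mem_Ioc]
  constructor
  · rintro ⟨h1, h2, -⟩
    exact ⟨h1, h2⟩
  · rintro ⟨h1, h2⟩
    exact ⟨h1, h2, by omega⟩

lemma op_pos {N : ℕ} (hN : 2 ≤ N) : 1 ≤ #(op N) := by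
  obtain ⟨p, hp, h1, h2⟩ := Nat.exists_prime_lt_and_le_two_mul N (by omega)
  refine card_pos.2 ⟨p, ?_⟩
  unfold op
  rw [mem_filter, mem_Ioc]
  exact ⟨⟨h1, h2⟩, hp, by omega⟩

/-- Chebyshev's lower bound -/
theorem op_lower : ∃ c : ℝ, 0 < c ∧ ∀ N : ℕ, 2 ≤ N → c * (N / Real.log N) ≤ (#(op N) : ℝ) := by
  obtain ⟨y0, hy0⟩ := primes_between
  set M : ℝ := ((max y0 2 : ℕ) : ℝ) with hM
  have hM0 : 0 < M := by
    rw [hM]
    exact_mod_cast (by omega : 0 < max y0 2)
  refine ⟨min (1 / 2) (Real.log 2 / M), by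
    have := Real.log_pos (by norm_num : (1 : ℝ) < 2)
    positivity, fun N hN => ?_⟩
  have hN2 : (2 : ℝ) ≤ N := by exact_mod_cast hN
  have hlog2 : 0 < Real.log 2 := Real.log_pos (by norm_num)
  have hlog : Real.log 2 ≤ Real.log N := Real.log_le_log (by norm_num) hN2
  have hlog0 : 0 < Real.log N := by linarith
  have hq : 0 ≤ (N : ℝ) / Real.log N := by positivity
  by_cases h : y0 ≤ N
  · have h1 := hy0 N h
    rw [← op_eq hN] at h1
    calc min (1 / 2) (Real.log 2 / M) * ((N : ℝ) / Real.log N) ≤ 1 / 2 * ((N : ℝ) / Real.log N) :=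
          mul_le_mul_of_nonneg_right (min_le_left _ _) hq
      _ = (N : ℝ) / (2 * Real.log N) := by field_simp
      _ ≤ _ := h1
  · have h2 : (N : ℝ) ≤ M := by
      rw [hM]
      exact_mod_cast (by omega : N ≤ max y0 2)
    calc min (1 / 2) (Real.log 2 / M) * ((N : ℝ) / Real.log N) ≤ Real.log 2 / M * ((N : ℝ) / Real.log N) :=
          mul_le_mul_of_nonneg_right (min_le_right _ _) hq
      _ ≤ Real.log 2 / M * (M / Real.log 2) := by
          refine mul_le_mul_of_nonneg_left ?_ (by positivity)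
          exact div_le_div₀ hM0.le h2 hlog2 hlog
      _ = 1 := by field_simp
      _ ≤ _ := by exact_mod_cast op_pos hN

end Pool.Agent.L5helper86.RB
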