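import Pool.Agent.L5helper86.RB.Base
import Pool.Agent.L5helper86.RB.Cheb

/-!
# Random base: the expected number of survivors in a dyadic block is bounded below
-/

set_option autoImplicit false

open Finset

namespace Pool.Agent.L5helper86.RB

/-- splitting the reciprocal sum at `(2N)^3` -/
lemma split_sum (θ : ℝ) (hθ : 0 < θ) (N n : ℕ) (hn : n ∈ op N) :
    ∑ p ∈ (pz (Real.exp (θ * n))).filter (fun p => p % n = 1), ((n : ℝ) - 1) / p ≤
      (∑ p ∈ (Icc 1 ((2 * N) ^ 3)).filter (fun p => p.Prime ∧ p % n = 1), (n : ℝ) / p) +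
      ((n : ℝ) - 1) * ∑ p ∈ (pz (Real.exp (2 * θ * N))).filter (fun p => (2 * N) ^ 3 < p ∧ p % n = 1), (1 : ℝ) / p := by
  unfold op at hn
  rw [mem_filter, mem_Ioc] at hn
  obtain ⟨⟨h1, h2⟩, h3, h4⟩ := hn
  have hn1 : (1 : ℝ) ≤ n := by exact_mod_cast h3.one_lt.le
  rw [mul_sum]
  rw [← sum_filter_add_sum_filter_not ((pz (Real.exp (θ * n))).filter (fun p => p % n = 1)) (fun p => p ≤ (2 * N) ^ 3)]
  refine add_le_add ?_ ?_
  · calc _ ≤ ∑ p ∈ ((pz (Real.exp (θ * n))).filter (fun p => p % n = 1)).filter (fun p => p ≤ (2 * N) ^ 3), (n : ℝ) / p := by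
          refine sum_le_sum fun p _ => ?_
          exact div_le_div_of_nonneg_right (by linarith) (Nat.cast_nonneg _)
      _ ≤ _ := by
          refine sum_le_sum_of_subset_of_nonneg ?_ (fun p _ _ => by positivity)
          intro p hp
          rw [mem_filter, mem_filter, mem_pz] at hp
          rw [mem_filter, mem_Icc]
          exact ⟨⟨hp.1.1.1.one_lt.le, hp.2⟩, hp.1.1.1, hp.1.2⟩
  · calc _ ≤ ∑ p ∈ (pz (Real.exp (2 * θ * N))).filter (fun p => (2 * N) ^ 3 < p ∧ p % n = 1), ((n : ℝ) - 1) / p := by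
          refine sum_le_sum_of_subset_of_nonneg ?_ (fun p _ _ => div_nonneg (by linarith) (Nat.cast_nonneg _))
          intro p hp
          rw [mem_filter, mem_filter, mem_pz] at hp
          rw [mem_filter, mem_pz]
          refine ⟨⟨hp.1.1.1, hp.1.1.2.trans ?_⟩, by omega, hp.1.2⟩
          apply Real.exp_le_exp.2
          have : (n : ℝ) ≤ 2 * N := by exact_mod_cast h2
          nlinarith
      _ = _ := by
          refine sum_congr rfl fun p _ => ?_
          ring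

/-- the expected number of survivors in a dyadic block -/
theorem block_lower
    (hA2 : ∀ θ : ℝ, 0 < θ → ∃ C : ℝ, 0 < C ∧ ∀ N : ℕ, 2 ≤ N →
      ∑ n ∈ op N, ((n : ℝ) - 1) *
        ∑ p ∈ (pz (Real.exp (2 * θ * N))).filter (fun p => (2 * N) ^ 3 < p ∧ p % n = 1), (1 : ℝ) / p ≤
        (#(op N) : ℝ) * (Real.log (N / Real.log N) + C))
    (hB : ∃ C : ℝ, 0 < C ∧ ∀ N : ℕ, 2 ≤ N →
      ∑ n ∈ op N, ∑ p ∈ (Icc 1 ((2 * N) ^ 3)).filter (fun p => p.Prime ∧ p % n = 1), (n : ℝ) / p ≤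
        C * N / Real.log N)
    (hP : ∀ {n : ℕ}, n.Prime → n ≠ 2 → ∀ z : ℝ,
      (2 / 3 : ℝ) * Real.exp (-2) * Real.exp (-(∑ p ∈ (pz z).filter (fun p => p % n = 1), ((n : ℝ) - 1) / p)) ≤ Pn z n)
    (θ : ℝ) (hθ : 0 < θ) : ∃ c : ℝ, 0 < c ∧ ∀ N : ℕ, 2 ≤ N → c ≤ ∑ n ∈ op N, Pn (Real.exp (θ * n)) n := by
  obtain ⟨CA, hCA, hA⟩ := hA2 θ hθ
  obtain ⟨CB, hCB, hB⟩ := hB
  obtain ⟨c, hc, hop⟩ := op_lower
  refine ⟨(2 / 3 : ℝ) * Real.exp (-2) * (Real.exp (-(CA + CB / c)) * c), by positivity, fun N hN => ?_⟩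
  have hN1 : (2 : ℝ) ≤ N := by exact_mod_cast hN
  have hlog : 0 < Real.log N := Real.log_pos (by linarith)
  have hQ : 0 < (N : ℝ) / Real.log N := by positivity
  have hopN := hop N hN
  have h1 : (CB * N / Real.log N) ≤ (#(op N) : ℝ) * (CB / c) := by
    have : CB * N / Real.log N = (c * (N / Real.log N)) * (CB / c) := by
      field_simp
    rw [this]
    exact mul_le_mul_of_nonneg_right hopN (by positivity)
  set a : ℝ := Real.log (N / Real.log N) + (CA + CB / c) with ha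
  set T : ℕ → ℝ := fun n => ∑ p ∈ (pz (Real.exp (θ * n))).filter (fun p => p % n = 1), ((n : ℝ) - 1) / p with hT
  have h2 : ∑ n ∈ op N, T n ≤ (#(op N) : ℝ) * a := by
    calc ∑ n ∈ op N, T n ≤ ∑ n ∈ op N, ((∑ p ∈ (Icc 1 ((2 * N) ^ 3)).filter (fun p => p.Prime ∧ p % n = 1), (n : ℝ) / p) +
          ((n : ℝ) - 1) * ∑ p ∈ (pz (Real.exp (2 * θ * N))).filter (fun p => (2 * N) ^ 3 < p ∧ p % n = 1), (1 : ℝ) / p) :=
          sum_le_sum fun n hn => split_sum θ hθ N n hn
      _ ≤ CB * N / Real.log N + (#(op N) : ℝ) * (Real.log (N / Real.log N) + CA) := by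
          rw [sum_add_distrib]
          exact add_le_add (hB N hN) (hA N hN)
      _ ≤ _ := by rw [ha]; nlinarith [h1]
  have h3 : ∀ n ∈ op N, Real.exp (-a) * (1 + a - T n) ≤ Real.exp (-T n) := by
    intro n _
    have e : Real.exp (-T n) = Real.exp (-a) * Real.exp (a - T n) := by
      rw [← Real.exp_add]; congr 1; ring
    rw [e]
    apply mul_le_mul_of_nonneg_left _ (Real.exp_pos _).le
    have := Real.add_one_le_exp (a - T n)
    linarith
  have h4 : (#(op N) : ℝ) * Real.exp (-a) ≤ ∑ n ∈ op N, Real.exp (-T n) := by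
    calc (#(op N) : ℝ) * Real.exp (-a) ≤ Real.exp (-a) * ∑ n ∈ op N, (1 + a - T n) := by
          rw [sum_sub_distrib, sum_const, nsmul_eq_mul, mul_comm (#(op N) : ℝ)]
          apply mul_le_mul_of_nonneg_left _ (Real.exp_pos _).le
          nlinarith [h2]
      _ = ∑ n ∈ op N, Real.exp (-a) * (1 + a - T n) := by rw [mul_sum]
      _ ≤ _ := sum_le_sum h3
  have h5 : Real.exp (-(CA + CB / c)) * c ≤ (#(op N) : ℝ) * Real.exp (-a) := by
    have e : Real.exp (-a) = (N / Real.log N)⁻¹ * Real.exp (-(CA + CB / c)) := by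
      rw [ha, neg_add, Real.exp_add, Real.exp_neg, Real.exp_log hQ]
    rw [e]
    calc Real.exp (-(CA + CB / c)) * c = (c * (N / Real.log N)) * ((N / Real.log N)⁻¹ * Real.exp (-(CA + CB / c))) := by
          field_simp
      _ ≤ _ := mul_le_mul_of_nonneg_right hopN (by positivity)
  calc (2 / 3 : ℝ) * Real.exp (-2) * (Real.exp (-(CA + CB / c)) * c)
      ≤ (2 / 3 : ℝ) * Real.exp (-2) * ∑ n ∈ op N, Real.exp (-T n) :=
        mul_le_mul_of_nonneg_left (h5.trans h4) (by positivity)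
    _ = ∑ n ∈ op N, (2 / 3 : ℝ) * Real.exp (-2) * Real.exp (-T n) := by rw [mul_sum]
    _ ≤ _ := by
        refine sum_le_sum fun n hn => ?_
        unfold op at hn
        rw [mem_filter] at hn
        exact hP hn.2.1 hn.2.2 _

end Pool.Agent.L5helper86.RB
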