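import Pool.Agent.L5helper86.RB.Neg
import Pool.Agent.L5helper86.RB.Low
import Pool.Agent.L5helper86.RB.Blk
import Pool.Agent.L5helper86.RB.Exi
import Pool.Agent.L5helper15.RB.V
import Pool.Agent.L5helper22.RB.B
import Pool.Agent.L5helper59.RB.U
import Pool.Agent.L5helper66.RB.F3
import Pool.Agent.L5helper66.RB.H
import Pool.Agent.L5helper79.RB.F1
import Pool.Agent.L5helper9.RB.Wb

/-!
# Random base: assembly
-/

set_option autoImplicit false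

open Finset MeasureTheory ProbabilityTheory Filter Topology

namespace Pool.Agent.L5helper86.RB

open Pool.Agent.L5helper86.UL (Sys Dep)

/-- the odd primes -/
def OP : Set ℕ := {n | n.Prime ∧ n ≠ 2}

lemma EE_OP (θ : ℝ) (x : ℕ) : EE θ OP x = ∑ n ∈ (range (x + 1)).filter (fun n => n.Prime ∧ n ≠ 2), Pn (Real.exp (θ * n)) n := by
  classical
  unfold EE
  exact sum_congr (filter_congr fun n _ => Iff.rfl) fun _ _ => rfl

theorem blk_lower {θ : ℝ} (hθ : 0 < θ) : ∃ c : ℝ, 0 < c ∧ ∀ N : ℕ, 2 ≤ N → c ≤ ∑ n ∈ op N, Pn (Real.exp (θ * n)) n :=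
  block_lower A2 Bsmall Pn_lower θ hθ

theorem blk_upper {θ : ℝ} (hθ : 0 < θ) : ∃ C : ℝ, 0 < C ∧ ∃ N0 : ℕ, ∀ N : ℕ, N0 ≤ N →
    ∑ n ∈ op N, Pn (Real.exp (θ * n)) n ≤ C :=
  block_upper scales Pn_le_exp op_upper θ hθ

theorem EE_lower {θ : ℝ} (hθ : 0 < θ) : ∃ c : ℝ, 0 < c ∧ ∃ x0 : ℕ, ∀ x : ℕ, x0 ≤ x → c * Real.log x ≤ EE θ OP x := by
  obtain ⟨c, hc, h⟩ := blk_lower hθ
  obtain ⟨c', hc', x0, h'⟩ := dyadic_lower (fun n => Pn (Real.exp (θ * n)) n) (fun _ => Pn_nonneg) c hc 2 h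
  exact ⟨c', hc', x0, fun x hx => by rw [EE_OP]; exact h' x hx⟩

theorem EE_upper {θ : ℝ} (hθ : 0 < θ) : ∃ C : ℝ, 0 < C ∧ ∃ x0 : ℕ, ∀ x : ℕ, x0 ≤ x → EE θ OP x ≤ C * Real.log x := by
  obtain ⟨C, hC, N0, h⟩ := blk_upper hθ
  obtain ⟨C', hC', x0, h'⟩ := dyadic_const_upper (fun n => Pn (Real.exp (θ * n)) n) (fun _ => Pn_nonneg) C hC N0 h
  exact ⟨C', hC', x0, fun x hx => by rw [EE_OP]; exact h' x hx⟩

lemma div_OP {θ : ℝ} (hθ : 0 < θ) : ¬ Summable (OP.indicator fun n : ℕ => Pn (Real.exp (θ * n)) n) := by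
  rw [not_summable_iff_tendsto_nat_atTop_of_nonneg (ind_nonneg θ OP)]
  obtain ⟨c, hc, x0, h⟩ := EE_lower hθ
  rw [← tendsto_add_atTop_iff_nat 1]
  have h1 : Tendsto (fun x : ℕ => c * Real.log x) atTop atTop :=
    (Real.tendsto_log_atTop.comp tendsto_natCast_atTop_atTop).const_mul_atTop hc
  refine tendsto_atTop_mono' atTop ?_ h1
  filter_upwards [eventually_ge_atTop x0] with x hx
  rw [← EE_eq]
  exact h x hx

variable {Ω : Type} [MeasurableSpace Ω] {P : Measure Ω} {X : ℕ → Ω → ℕ}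

lemma cnt_mono {θ θ' : ℝ} (hθ : θ ≤ θ') (b : ℕ → ℕ) (S : Set ℕ) (x : ℕ) : cnt θ' b S x ≤ cnt θ b S x := by
  classical
  unfold cnt
  refine card_le_card fun n hn => ?_
  rw [mem_filter] at hn ⊢
  refine ⟨hn.1, hn.2.1, fun p hp hpz => hn.2.2 p hp (hpz.trans (Real.exp_le_exp.2 ?_))⟩
  exact mul_le_mul_of_nonneg_right hθ (Nat.cast_nonneg _)

/-- almost surely, for every `θ` at once -/
theorem all_theta (h : Sys P X) : ∀ᵐ ω ∂P, ∀ θ : ℝ, 0 < θ → ∃ c C : ℝ, 0 < c ∧ 0 < C ∧ ∀ᶠ x : ℕ in atTop,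
    c * Real.log x ≤ cnt θ (fun p => X p ω) OP x ∧ (cnt θ (fun p => X p ω) OP x : ℝ) ≤ C * Real.log x := by
  have hS : ∀ n ∈ OP, n.Prime ∧ n ≠ 2 := fun n hn => hn
  have h1 : ∀ᵐ ω ∂P, ∀ k : ℕ, Tendsto (fun x : ℕ => (cnt ((k : ℝ) + 1) (fun p => X p ω) OP x : ℝ) / EE ((k : ℝ) + 1) OP x) atTop (𝓝 1) :=
    ae_all_iff.2 fun k => law1 h (by positivity) hS (div_OP (by positivity))
  have h2 : ∀ᵐ ω ∂P, ∀ k : ℕ, Tendsto (fun x : ℕ => (cnt (1 / ((k : ℝ) + 1)) (fun p => X p ω) OP x : ℝ) / EE (1 / ((k : ℝ) + 1)) OP x) atTop (𝓝 1) :=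
    ae_all_iff.2 fun k => law1 h (by positivity) hS (div_OP (by positivity))
  filter_upwards [h1, h2] with ω h1 h2 θ hθ
  obtain ⟨k, hk⟩ := exists_nat_ge θ
  have hk' : θ ≤ (k : ℝ) + 1 := by linarith
  obtain ⟨c, hc, x0, hE⟩ := EE_lower (θ := (k : ℝ) + 1) (by positivity)
  obtain ⟨l, hl⟩ := exists_nat_gt (1 / θ)
  have hl' : 1 / ((l : ℝ) + 1) ≤ θ := by
    rw [div_le_iff₀ (by positivity)]
    rw [div_lt_iff₀ hθ] at hl
    nlinarith
  obtain ⟨c1, hc1, x1, hE1⟩ := EE_lower (θ := 1 / ((l : ℝ) + 1)) (by positivity)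
  obtain ⟨C, hC, x2, hU⟩ := EE_upper (θ := 1 / ((l : ℝ) + 1)) (by positivity)
  refine ⟨c / 2, 2 * C, by positivity, by positivity, ?_⟩
  filter_upwards [(h1 k).eventually (lt_mem_nhds (show (1 / 2 : ℝ) < 1 by norm_num)), eventually_ge_atTop x0,
    eventually_ge_atTop 3, (h2 l).eventually (gt_mem_nhds (show (1 : ℝ) < 2 by norm_num)), eventually_ge_atTop x1,
    eventually_ge_atTop x2] with x hx hx0 hx3 hx' hx1 hx2
  have hlog : 0 < Real.log x := Real.log_pos (by exact_mod_cast (by omega : 1 < x))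
  constructor
  · have hEx := hE x hx0
    have hpos : 0 < EE ((k : ℝ) + 1) OP x := lt_of_lt_of_le (by positivity) hEx
    rw [lt_div_iff₀ hpos] at hx
    have hm : (cnt ((k : ℝ) + 1) (fun p => X p ω) OP x : ℝ) ≤ cnt θ (fun p => X p ω) OP x := by
      exact_mod_cast cnt_mono hk' _ _ _
    linarith
  · have hEx := hE1 x hx1
    have hpos : 0 < EE (1 / ((l : ℝ) + 1)) OP x := lt_of_lt_of_le (by positivity) hEx
    rw [div_lt_iff₀ hpos] at hx'
    have hm : (cnt θ (fun p => X p ω) OP x : ℝ) ≤ cnt (1 / ((l : ℝ) + 1)) (fun p => X p ω) OP x := by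
      exact_mod_cast cnt_mono hl' _ _ _
    have hUx := hU x hx2
    nlinarith

lemma Pn_le_one' {z : ℝ} {n : ℕ} : Pn z n ≤ 1 := by
  unfold Pn
  refine prod_le_one (fun p hp => ?_) fun p hp => ?_
  · have hp1 := (mem_pz.1 hp).1
    have hp0 : (0 : ℝ) < p := by exact_mod_cast hp1.pos
    have h1 : #(rts p n) ≤ p := by
      have := card_le_card (rts_sub p n)
      rwa [card_range] at this
    have h2 : (#(rts p n) : ℝ) / p ≤ 1 := by
      rw [div_le_one hp0]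
      exact_mod_cast h1
    linarith
  · have : (0 : ℝ) ≤ (#(rts p n) : ℝ) / p := by positivity
    linarith

lemma blk_all {θ : ℝ} (hθ : 0 < θ) : ∃ C : ℝ, 0 < C ∧ ∀ S : Set ℕ, (∀ n ∈ S, n.Prime ∧ n ≠ 2) → ∀ j : ℕ,
    ∑ n ∈ Ioc (2 ^ j) (2 ^ (j + 1)), S.indicator (fun n : ℕ => Pn (Real.exp (θ * n)) n) n ≤ C := by
  classical
  obtain ⟨C, hC, N0, h⟩ := blk_upper hθ
  refine ⟨C + N0, by positivity, fun S hS j => ?_⟩
  by_cases hj : N0 ≤ 2 ^ j
  · calc ∑ n ∈ Ioc (2 ^ j) (2 ^ (j + 1)), S.indicator (fun n : ℕ => Pn (Real.exp (θ * n)) n) n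
        ≤ ∑ n ∈ Ioc ((2 : ℕ) ^ j) (2 ^ (j + 1)), (if n.Prime ∧ n ≠ 2 then Pn (Real.exp (θ * n)) n else 0) := by
          refine sum_le_sum fun n _ => ?_
          by_cases hn : n ∈ S
          · rw [Set.indicator_of_mem hn, if_pos (hS n hn)]
          · rw [Set.indicator_of_notMem hn]
            split_ifs
            · exact Pn_nonneg
            · exact le_rfl
      _ = ∑ n ∈ op (2 ^ j), Pn (Real.exp (θ * n)) n := by
          unfold op
          rw [sum_filter, pow_succ, mul_comm ((2 : ℕ) ^ j) 2]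
      _ ≤ C := h _ hj
      _ ≤ C + N0 := by linarith [(Nat.cast_nonneg N0 : (0 : ℝ) ≤ N0)]
  · calc ∑ n ∈ Ioc (2 ^ j) (2 ^ (j + 1)), S.indicator (fun n : ℕ => Pn (Real.exp (θ * n)) n) n
        ≤ ∑ n ∈ Ioc ((2 : ℕ) ^ j) (2 ^ (j + 1)), (1 : ℝ) := by
          refine sum_le_sum fun n _ => ?_
          by_cases hn : n ∈ S
          · rw [Set.indicator_of_mem hn]
            exact Pn_le_one'
          · rw [Set.indicator_of_notMem hn]
            exact zero_le_one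
      _ = ((2 ^ (j + 1) - 2 ^ j : ℕ) : ℝ) := by simp
      _ ≤ (N0 : ℝ) := by
          have h1 : (2 : ℕ) ^ (j + 1) - 2 ^ j = 2 ^ j := by
            rw [pow_succ]
            omega
          rw [h1]
          exact_mod_cast (not_le.1 hj).le
      _ ≤ C + N0 := by linarith

open Classical in
/-- the number of the survivors in `S ∩ (x, y]` -/
noncomputable def wn (θ : ℝ) (b : ℕ → ℕ) (S : Set ℕ) (x y : ℕ) : ℕ :=
  #((Ioc x y).filter fun n => n ∈ S ∧ Sv (Real.exp (θ * n)) b n)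

open Classical in
/-- the expected number of the survivors in `S ∩ (x, y]` -/
noncomputable def EW (θ : ℝ) (S : Set ℕ) (x y : ℕ) : ℝ :=
  ∑ n ∈ (Ioc x y).filter (· ∈ S), Pn (Real.exp (θ * n)) n

lemma wn_zero (θ : ℝ) (b : ℕ → ℕ) {S : Set ℕ} (hS : ∀ n ∈ S, n.Prime ∧ n ≠ 2) (x : ℕ) : wn θ b S 0 x = cnt θ b S x := by
  classical
  unfold wn cnt
  congr 1
  ext n
  simp only [mem_filter, mem_Ioc, mem_range]
  constructor
  · rintro ⟨h1, h2⟩
    exact ⟨by omega, h2⟩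
  · rintro ⟨h1, h2⟩
    exact ⟨⟨(hS n h2.1).1.pos, by omega⟩, h2⟩

lemma EW_zero (θ : ℝ) {S : Set ℕ} (hS : ∀ n ∈ S, n.Prime ∧ n ≠ 2) (x : ℕ) : EW θ S 0 x = EE θ S x := by
  classical
  unfold EW EE
  refine sum_congr ?_ fun _ _ => rfl
  ext n
  simp only [mem_filter, mem_Ioc, mem_range]
  constructor
  · rintro ⟨h1, h2⟩
    exact ⟨by omega, h2⟩
  · rintro ⟨h1, h2⟩
    exact ⟨⟨(hS n h2).1.pos, by omega⟩, h2⟩

theorem win_law (h : Sys P X) {θ : ℝ} (hθ : 0 < θ) {S : Set ℕ} (hS : ∀ n ∈ S, n.Prime ∧ n ≠ 2) :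
    ∃ C : ℝ, 0 < C ∧ ∀ᵐ ω ∂P, ∀ᶠ x : ℕ in atTop, ∀ y : ℕ, x ≤ y →
      |(wn θ (fun p => X p ω) S x y : ℝ) - EW θ S x y| ≤
        C * (√(EW θ S x y * Real.log (Real.log y)) + Real.log (Real.log y)) := by
  classical
  have hP := h.prob
  obtain ⟨C0, hC0, hblk⟩ := blk_all hθ
  obtain ⟨C, hC, hw⟩ := windows P (AA X θ S) (fun s K hK => AA_ch h hθ.le hS s K hK) C0 hC0.le fun j => by
    rw [sum_congr rfl fun n _ => AA_prob h θ S n]
    exact hblk S hS j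
  refine ⟨C, hC, ?_⟩
  filter_upwards [hw] with ω hω
  filter_upwards [hω] with x hx y hy
  have h1 := hx y hy
  have e1 : ∑ n ∈ Ioc x y, P.real (AA X θ S n) = EW θ S x y := by
    unfold EW
    rw [sum_filter]
    refine sum_congr rfl fun n _ => ?_
    rw [AA_prob h θ S n]
    unfold Set.indicator
    simp
  have e2 : ∑ n ∈ Ioc x y, (AA X θ S n).indicator (fun _ => (1 : ℝ)) ω = (wn θ (fun p => X p ω) S x y : ℝ) := by
    unfold wn
    rw [card_filter]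
    push_cast
    refine sum_congr rfl fun n _ => ?_
    unfold AA Set.indicator
    simp
  rw [e1, e2] at h1
  exact h1

theorem EW_bounds {θ : ℝ} (hθ : 0 < θ) : ∃ c C : ℝ, 0 < c ∧ 0 < C ∧ ∃ x0 : ℕ, 1 ≤ x0 ∧ ∀ x y : ℕ, x0 ≤ x → x ≤ y →
    c * Real.log ((y : ℝ) / x) - C ≤ EW θ OP x y ∧ EW θ OP x y ≤ C * Real.log ((y : ℝ) / x) + C := by
  classical
  obtain ⟨c, hc, h1⟩ := blk_lower hθ
  obtain ⟨C, hC, N0, h2⟩ := blk_upper hθ
  obtain ⟨c', C', hc', hC', x0, hx0, h⟩ := window_bounds (fun n => Pn (Real.exp (θ * n)) n) (fun _ => Pn_nonneg) c C hc hC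
    (max N0 2) (fun N hN => h1 N ((le_max_right _ _).trans hN)) (fun N hN => h2 N ((le_max_left _ _).trans hN))
  refine ⟨c', C', hc', hC', x0, hx0, fun x y hx hy => ?_⟩
  have e : EW θ OP x y = ∑ n ∈ (Ioc x y).filter (fun n => n.Prime ∧ n ≠ 2), Pn (Real.exp (θ * n)) n := by
    unfold EW
    exact sum_congr (filter_congr fun n _ => Iff.rfl) fun _ _ => rfl
  rw [e]
  exact h x y hx hy

end Pool.Agent.L5helper86.RB
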