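import Mathlib

/-!
# Chebyshev's inequality for pairwise negatively correlated events
-/

set_option autoImplicit false

open Finset MeasureTheory ProbabilityTheory

namespace Pool.Agent.L5helper86.RB

theorem cheb {Ω : Type} [MeasurableSpace Ω] (P : Measure Ω) [IsProbabilityMeasure P] (A : ℕ → Set Ω)
    (hA : ∀ n, MeasurableSet (A n)) (hneg : ∀ n m, n ≠ m → P.real (A n ∩ A m) ≤ P.real (A n) * P.real (A m))
    (s : Finset ℕ) (E : ℝ) (hE : E = ∑ n ∈ s, P.real (A n)) (hE0 : 0 < E) (ε : ℝ) (hε : 0 < ε) :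
    P.real {ω | ε * E ≤ |∑ n ∈ s, (A n).indicator (fun _ => (1 : ℝ)) ω - E|} ≤ 1 / (ε ^ 2 * E) := by
  classical
  set Y : Ω → ℝ := fun ω => ∑ n ∈ s, (A n).indicator (fun _ => (1 : ℝ)) ω with hY
  have hYm : Measurable Y := by
    apply Finset.measurable_sum
    intro n _
    exact measurable_const.indicator (hA n)
  have hiA : ∀ n, Integrable ((A n).indicator (fun _ => (1 : ℝ))) P := fun n =>
    (integrable_const (1 : ℝ)).indicator (hA n)
  have hiAA : ∀ n m, Integrable ((A n ∩ A m).indicator (fun _ => (1 : ℝ))) P := fun n m =>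
    (integrable_const (1 : ℝ)).indicator ((hA n).inter (hA m))
  have hI1 : ∀ B : Set Ω, MeasurableSet B → ∫ ω, B.indicator (fun _ => (1 : ℝ)) ω ∂P = P.real B := by
    intro B hB
    rw [integral_indicator hB]
    simp [Measure.real]
  have hYint : Integrable Y P := by
    rw [hY]
    exact integrable_finsetSum _ fun n _ => hiA n
  have hY1 : ∫ ω, Y ω ∂P = E := by
    rw [hE, hY]
    rw [integral_finsetSum _ fun n _ => hiA n]
    exact sum_congr rfl fun n _ => hI1 _ (hA n)
  have hYY : (fun ω => Y ω ^ 2) = fun ω => ∑ n ∈ s, ∑ m ∈ s, (A n ∩ A m).indicator (fun _ => (1 : ℝ)) ω := by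
    funext ω
    rw [hY]
    simp only
    rw [sq, sum_mul_sum]
    refine sum_congr rfl fun n _ => sum_congr rfl fun m _ => ?_
    by_cases h1 : ω ∈ A n <;> by_cases h2 : ω ∈ A m <;> simp [Set.indicator, h1, h2]
  have hY2i : Integrable (fun ω => Y ω ^ 2) P := by
    rw [hYY]
    exact integrable_finsetSum _ fun n _ => integrable_finsetSum _ fun m _ => hiAA n m
  have hY2 : ∫ ω, Y ω ^ 2 ∂P ≤ E + E ^ 2 := by
    rw [hYY, integral_finsetSum _ fun n _ => integrable_finsetSum _ fun m _ => hiAA n m]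
    have e : ∀ n ∈ s, ∫ ω, ∑ m ∈ s, (A n ∩ A m).indicator (fun _ => (1 : ℝ)) ω ∂P =
        ∑ m ∈ s, P.real (A n ∩ A m) := by
      intro n _
      rw [integral_finsetSum _ fun m _ => hiAA n m]
      exact sum_congr rfl fun m _ => hI1 _ ((hA n).inter (hA m))
    rw [sum_congr rfl e]
    have h2 : ∀ n ∈ s, ∑ m ∈ s, P.real (A n ∩ A m) ≤ P.real (A n) + P.real (A n) * E := by
      intro n hn
      rw [← add_sum_erase _ _ hn]
      have h3 : P.real (A n ∩ A n) = P.real (A n) := by rw [Set.inter_self]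
      rw [h3]
      refine add_le_add le_rfl ?_
      rw [hE, mul_sum]
      calc ∑ m ∈ s.erase n, P.real (A n ∩ A m) ≤ ∑ m ∈ s.erase n, P.real (A n) * P.real (A m) :=
            sum_le_sum fun m hm => hneg n m (ne_of_mem_erase hm).symm
        _ ≤ _ := sum_le_sum_of_subset_of_nonneg (erase_subset _ _) fun m _ _ =>
            mul_nonneg measureReal_nonneg measureReal_nonneg
    calc _ ≤ ∑ n ∈ s, (P.real (A n) + P.real (A n) * E) := sum_le_sum h2
      _ = E + E ^ 2 := by rw [sum_add_distrib, ← sum_mul, ← hE]; ring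
  have hV : ∫ ω, (Y ω - E) ^ 2 ∂P ≤ E := by
    have e : (fun ω => (Y ω - E) ^ 2) = fun ω => (Y ω ^ 2 - 2 * E * Y ω) + E ^ 2 := by
      funext ω; ring
    have hi1 : Integrable (fun ω => 2 * E * Y ω) P := hYint.const_mul _
    have hi2 : Integrable (fun ω => Y ω ^ 2 - 2 * E * Y ω) P := hY2i.sub hi1
    rw [e, integral_add hi2 (integrable_const _), integral_sub hY2i hi1, integral_const_mul, hY1]
    have hc : ∫ _ω : Ω, E ^ 2 ∂P = E ^ 2 := by simp
    rw [hc]
    nlinarith
  have hVi : Integrable (fun ω => (Y ω - E) ^ 2) P := by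
    have e : (fun ω => (Y ω - E) ^ 2) = fun ω => (Y ω ^ 2 - 2 * E * Y ω) + E ^ 2 := by
      funext ω; ring
    rw [e]
    exact (hY2i.sub (hYint.const_mul _)).add (integrable_const _)
  have hM : MeasurableSet {ω | ε * E ≤ |Y ω - E|} :=
    measurableSet_le measurable_const (continuous_abs.measurable.comp (hYm.sub_const E))
  have hkey : (ε * E) ^ 2 * P.real {ω | ε * E ≤ |Y ω - E|} ≤ E := by
    calc (ε * E) ^ 2 * P.real {ω | ε * E ≤ |Y ω - E|} =
        ∫ ω, (ε * E) ^ 2 * ({ω | ε * E ≤ |Y ω - E|}.indicator (fun _ => (1 : ℝ)) ω) ∂P := by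
          rw [integral_const_mul, hI1 _ hM]
      _ ≤ ∫ ω, (Y ω - E) ^ 2 ∂P := by
          refine integral_mono (((integrable_const (1 : ℝ)).indicator hM).const_mul _) hVi fun ω => ?_
          by_cases h1 : ω ∈ {ω | ε * E ≤ |Y ω - E|}
          · simp only [Set.indicator_of_mem h1, mul_one]
            have h2 : ε * E ≤ |Y ω - E| := h1
            rw [← sq_abs (Y ω - E)]
            exact pow_le_pow_left₀ (by positivity) h2 2
          · simp only [Set.indicator_of_notMem h1, mul_zero]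
            positivity
      _ ≤ E := hV
  rw [le_div_iff₀ (by positivity)]
  have h5 : P.real {ω | ε * E ≤ |Y ω - E|} * (ε ^ 2 * E) * E ≤ 1 * E := by nlinarith
  exact le_of_mul_le_mul_right h5 hE0

end Pool.Agent.L5helper86.RB
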