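import Pool.Agent.L5helper86.RB.Prob
import Pool.Agent.L5helper86.RB.Cb
import Pool.Agent.L5helper59.RB.E
import Pool.Agent.L5helper64.RB.D
import Pool.Agent.L5helper66.RB.C1

/-!
# Random base: the laws
-/

set_option autoImplicit false

open Finset MeasureTheory ProbabilityTheory Filter Topology

namespace Pool.Agent.L5helper86.RB

open Pool.Agent.L5helper86.UL (Sys Dep)

variable {Ω : Type} [MeasurableSpace Ω] {P : Measure Ω} {X : ℕ → Ω → ℕ}

lemma Sv_iff' {z : ℝ} {b : ℕ → ℕ} {n : ℕ} : Sv z b n ↔ ∀ p ∈ pz z, qs p (b p) n ≠ 0 := by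
  constructor
  · intro h p hp
    rw [mem_pz] at hp
    exact h p hp.1 hp.2
  · intro h p hp hpz
    exact h p (mem_pz.2 ⟨hp, hpz⟩)

lemma Sv_meas (h : Sys P X) (z : ℝ) (n : ℕ) : MeasurableSet {ω | Sv z (fun p => X p ω) n} := by
  have e : {ω | Sv z (fun p => X p ω) n} = ⋂ p ∈ pz z, X p ⁻¹' {b | qs p b n ≠ 0} := by
    ext ω
    simp only [Set.mem_ofPred_eq, Sv_iff', Set.mem_iInter, Set.mem_preimage]
  rw [e]
  exact Finset.measurableSet_biInter _ fun p _ => h.meas p MeasurableSet.of_discrete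

/-- the event that `n` lies in `S` and survives -/
def AA (X : ℕ → Ω → ℕ) (θ : ℝ) (S : Set ℕ) (n : ℕ) : Set Ω := {ω | n ∈ S ∧ Sv (Real.exp (θ * n)) (fun p => X p ω) n}

lemma AA_mem {θ : ℝ} {S : Set ℕ} {n : ℕ} (hn : n ∈ S) : AA X θ S n = {ω | Sv (Real.exp (θ * n)) (fun p => X p ω) n} := by
  ext ω
  simp [AA, hn]

lemma AA_notMem {θ : ℝ} {S : Set ℕ} {n : ℕ} (hn : n ∉ S) : AA X θ S n = ∅ := by
  ext ω
  simp [AA, hn]

lemma AA_meas (h : Sys P X) (θ : ℝ) (S : Set ℕ) (n : ℕ) : MeasurableSet (AA X θ S n) := by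
  by_cases hn : n ∈ S
  · rw [AA_mem hn]
    exact Sv_meas h _ _
  · rw [AA_notMem hn]
    exact MeasurableSet.empty

lemma AA_prob (h : Sys P X) (θ : ℝ) (S : Set ℕ) (n : ℕ) :
    P.real (AA X θ S n) = S.indicator (fun n => Pn (Real.exp (θ * n)) n) n := by
  by_cases hn : n ∈ S
  · rw [AA_mem hn, Set.indicator_of_mem hn, Sv_prob h]
  · rw [AA_notMem hn, Set.indicator_of_notMem hn]
    simp

lemma joint (h : Sys P X) {θ : ℝ} (hθ : 0 ≤ θ) {n m : ℕ} (hn : n.Prime) (hn2 : n ≠ 2) (hm : m.Prime) (hm2 : m ≠ 2)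
    (hnm : n ≠ m) :
    P.real ({ω | Sv (Real.exp (θ * n)) (fun p => X p ω) n} ∩ {ω | Sv (Real.exp (θ * m)) (fun p => X p ω) m}) ≤
      Pn (Real.exp (θ * n)) n * Pn (Real.exp (θ * m)) m := by
  rcases lt_or_gt_of_ne hnm with h1 | h1
  · refine Sv_joint h (Real.exp_le_exp.2 (mul_le_mul_of_nonneg_left (Nat.cast_le.2 (le_of_lt h1)) hθ)) fun p hp b => ?_
    exact rts_disj hn hn2 hm hm2 hnm hp b
  · rw [Set.inter_comm, mul_comm (Pn _ n)]
    refine Sv_joint h (Real.exp_le_exp.2 (mul_le_mul_of_nonneg_left (Nat.cast_le.2 (le_of_lt h1)) hθ)) fun p hp b => ?_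
    exact rts_disj hm hm2 hn hn2 (Ne.symm hnm) hp b

lemma AA_neg (h : Sys P X) {θ : ℝ} (hθ : 0 ≤ θ) {S : Set ℕ} (hS : ∀ n ∈ S, n.Prime ∧ n ≠ 2) (n m : ℕ) (hnm : n ≠ m) :
    P.real (AA X θ S n ∩ AA X θ S m) ≤ P.real (AA X θ S n) * P.real (AA X θ S m) := by
  by_cases hn : n ∈ S
  · by_cases hm : m ∈ S
    · rw [AA_mem hn, AA_mem hm, Sv_prob h, Sv_prob h]
      exact joint h hθ (hS n hn).1 (hS n hn).2 (hS m hm).1 (hS m hm).2 hnm
    · rw [AA_notMem hm, Set.inter_empty]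
      simp
  · rw [AA_notMem hn, Set.empty_inter]
    simp

lemma Pn_nonneg {z : ℝ} {n : ℕ} : 0 ≤ Pn z n := by
  unfold Pn
  refine prod_nonneg fun p hp => ?_
  have hp1 := (mem_pz.1 hp).1
  have hp0 : (0 : ℝ) < p := by exact_mod_cast hp1.pos
  have h1 : #(rts p n) ≤ p := by
    have := card_le_card (rts_sub p n)
    rwa [card_range] at this
  have h2 : (#(rts p n) : ℝ) / p ≤ 1 := by
    rw [div_le_one hp0]
    exact_mod_cast h1
  linarith

lemma ind_nonneg (θ : ℝ) (S : Set ℕ) (n : ℕ) : 0 ≤ S.indicator (fun n : ℕ => Pn (Real.exp (θ * n)) n) n := by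
  by_cases hn : n ∈ S
  · rw [Set.indicator_of_mem hn]
    exact Pn_nonneg
  · rw [Set.indicator_of_notMem hn]

open Classical in
/-- the number of the survivors in `S` up to `x` -/
noncomputable def cnt (θ : ℝ) (b : ℕ → ℕ) (S : Set ℕ) (x : ℕ) : ℕ :=
  #((range (x + 1)).filter fun n => n ∈ S ∧ Sv (Real.exp (θ * n)) b n)

open Classical in
/-- the expected number of the survivors in `S` up to `x` -/
noncomputable def EE (θ : ℝ) (S : Set ℕ) (x : ℕ) : ℝ :=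
  ∑ n ∈ (range (x + 1)).filter (· ∈ S), Pn (Real.exp (θ * n)) n

lemma cnt_eq (θ : ℝ) (S : Set ℕ) (x : ℕ) (ω : Ω) :
    (cnt θ (fun p => X p ω) S x : ℝ) = ∑ n ∈ range (x + 1), (AA X θ S n).indicator (fun _ => (1 : ℝ)) ω := by
  classical
  unfold cnt
  rw [card_filter]
  push_cast
  refine sum_congr rfl fun n _ => ?_
  unfold AA Set.indicator
  simp

lemma EE_eq (θ : ℝ) (S : Set ℕ) (x : ℕ) :
    EE θ S x = ∑ n ∈ range (x + 1), S.indicator (fun n : ℕ => Pn (Real.exp (θ * n)) n) n := by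
  classical
  unfold EE
  rw [sum_filter]
  refine sum_congr rfl fun n _ => ?_
  unfold Set.indicator
  simp

theorem law1 (h : Sys P X) {θ : ℝ} (hθ : 0 ≤ θ) {S : Set ℕ} (hS : ∀ n ∈ S, n.Prime ∧ n ≠ 2)
    (hdiv : ¬ Summable (S.indicator fun n : ℕ => Pn (Real.exp (θ * n)) n)) :
    ∀ᵐ ω ∂P, Tendsto (fun x : ℕ => (cnt θ (fun p => X p ω) S x : ℝ) / EE θ S x) atTop (𝓝 1) := by
  have hP := h.prob
  have h1 : Tendsto (fun x : ℕ => ∑ n ∈ range x, P.real (AA X θ S n)) atTop atTop := by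
    have e : (fun x : ℕ => ∑ n ∈ range x, P.real (AA X θ S n)) =
        fun x : ℕ => ∑ n ∈ range x, S.indicator (fun n : ℕ => Pn (Real.exp (θ * n)) n) n := by
      funext x
      exact sum_congr rfl fun n _ => AA_prob h θ S n
    rw [e]
    exact (not_summable_iff_tendsto_nat_atTop_of_nonneg (ind_nonneg θ S)).1 hdiv
  filter_upwards [neg_law P (AA X θ S) (AA_meas h θ S) (AA_neg h hθ hS) h1] with ω hω
  refine (hω.comp (tendsto_add_atTop_nat 1)).congr fun x => ?_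
  rw [Function.comp_apply, cnt_eq, EE_eq]
  congr 1
  exact sum_congr rfl fun n _ => AA_prob h θ S n

theorem law2 (h : Sys P X) {θ : ℝ} {S : Set ℕ}
    (hsum : Summable (S.indicator fun n : ℕ => Pn (Real.exp (θ * n)) n)) :
    ∀ᵐ ω ∂P, {n : ℕ | n ∈ S ∧ Sv (Real.exp (θ * n)) (fun p => X p ω) n}.Finite := by
  have hP := h.prob
  have h1 : ∑' n, P (AA X θ S n) ≠ ⊤ := by
    have e : ∀ n, P (AA X θ S n) = ENNReal.ofReal (S.indicator (fun n : ℕ => Pn (Real.exp (θ * n)) n) n) := by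
      intro n
      rw [← AA_prob h θ S n]
      exact (ofReal_measureReal).symm
    simp_rw [e]
    exact hsum.tsum_ofReal_ne_top
  filter_upwards [ae_eventually_notMem h1] with ω hω
  obtain ⟨N, hN⟩ := eventually_atTop.1 hω
  refine (Set.finite_lt_nat N).subset fun n hn => ?_
  by_contra hlt
  exact hN n (not_lt.1 hlt) hn

/-- Chebyshev's inequality -/
theorem dev_prob (h : Sys P X) {θ : ℝ} (hθ : 0 ≤ θ) {S : Set ℕ} (hS : ∀ n ∈ S, n.Prime ∧ n ≠ 2) (x : ℕ) (hE : 0 < EE θ S x)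
    (ε : ℝ) (hε : 0 < ε) :
    P.real {ω | ε * EE θ S x ≤ |(cnt θ (fun p => X p ω) S x : ℝ) - EE θ S x|} ≤ 1 / (ε ^ 2 * EE θ S x) := by
  have hP := h.prob
  have h1 := cheb P (AA X θ S) (AA_meas h θ S) (AA_neg h hθ hS) (range (x + 1)) (EE θ S x)
    (by rw [EE_eq]; exact sum_congr rfl fun n _ => (AA_prob h θ S n).symm) hE ε hε
  refine le_trans (le_of_eq ?_) h1
  congr 1
  ext ω
  simp only [Set.mem_ofPred_eq, cnt_eq]

lemma qs_mod (p b n : ℕ) : qs p (b % p) n = qs p b n := by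
  unfold qs
  rw [ZMod.natCast_mod]

lemma cnt_congr {θ : ℝ} (hθ : 0 ≤ θ) {S : Set ℕ} {x : ℕ} {a b : ℕ → ℕ}
    (hab : ∀ p ∈ pz (Real.exp (θ * x)), qs p (a p) = qs p (b p)) : cnt θ a S x = cnt θ b S x := by
  classical
  unfold cnt
  congr 1
  refine filter_congr fun n hn => ?_
  refine and_congr_right fun _ => ?_
  rw [Sv_iff', Sv_iff']
  refine forall₂_congr fun p hp => ?_
  rw [hab p ?_]
  rw [mem_pz] at hp ⊢
  refine ⟨hp.1, hp.2.trans (Real.exp_le_exp.2 (mul_le_mul_of_nonneg_left ?_ hθ))⟩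
  have := mem_range.1 hn
  exact_mod_cast Nat.lt_succ_iff.1 this

/-- the exact count over a full period -/
theorem period (h : Sys P X) {θ : ℝ} (hθ : 0 ≤ θ) {S : Set ℕ} (x : ℕ) (H : ℕ → Prop) [DecidablePred H] :
    P.real {ω | H (cnt θ (fun p => X p ω) S x)} =
      (#((range (∏ p ∈ pz (Real.exp (θ * x)), p)).filter fun b => H (cnt θ (fun _ => b) S x)) : ℝ) /
        ∏ p ∈ pz (Real.exp (θ * x)), (p : ℝ) := by
  classical
  have h1 := prob_eq_count h (pz (Real.exp (θ * x))) (fun p hp => (mem_pz.1 hp).1)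
    (fun a => H (cnt θ a S x)) (fun a b hab => by
      rw [cnt_congr hθ fun p hp => by rw [hab p hp]])
  rw [h1]
  congr 3
  refine filter_congr fun b _ => ?_
  rw [cnt_congr hθ (a := fun p => b % p) (b := fun _ => b) fun p hp => funext fun n => qs_mod p b n]

end Pool.Agent.L5helper86.RB
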