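import Pool.Agent.L5helper86.RB.Ass

/-!
# Random base: gaps between the survivors
-/

set_option autoImplicit false

open Finset MeasureTheory ProbabilityTheory Filter Topology

namespace Pool.Agent.L5helper86.RB

open Pool.Agent.L5helper86.UL (Sys Dep)

lemma wn_mono (θ : ℝ) (b : ℕ → ℕ) (S : Set ℕ) (x : ℕ) {y y' : ℕ} (hy : y ≤ y') : wn θ b S x y ≤ wn θ b S x y' := by
  classical
  unfold wn
  exact card_le_card (filter_subset_filter _ (Ioc_subset_Ioc_right hy))

variable {Ω : Type} [MeasurableSpace Ω] {P : Measure Ω} {X : ℕ → Ω → ℕ}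

theorem gaps (h : Sys P X) {θ : ℝ} (hθ : 0 < θ) : ∃ K : ℝ, 0 < K ∧ ∀ᵐ ω ∂P, ∀ᶠ x : ℕ in atTop, ∀ y : ℕ,
    (x : ℝ) * (Real.log x) ^ K ≤ y → 0 < wn θ (fun p => X p ω) OP x y := by
  obtain ⟨c, C1, hc, hC1, x0, hx0, hEW⟩ := EW_bounds hθ
  obtain ⟨C, hC, hw⟩ := win_law h hθ (S := OP) (fun n hn => hn)
  obtain ⟨K, hK1, hK2⟩ : ∃ K : ℝ, 1 ≤ K ∧ (8 * C + 8) ^ 2 ≤ c * K := by
    refine ⟨max 1 ((8 * C + 8) ^ 2 / c), le_max_left _ _, ?_⟩
    have := le_max_right (1 : ℝ) ((8 * C + 8) ^ 2 / c)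
    rwa [div_le_iff₀' hc] at this
  have hK : 0 < K := by linarith
  have hcK : 0 < c * K := by positivity
  refine ⟨K, hK, ?_⟩
  filter_upwards [hw] with ω hω
  have hll : Tendsto (fun x : ℕ => Real.log (Real.log x)) atTop atTop :=
    Real.tendsto_log_atTop.comp (Real.tendsto_log_atTop.comp tendsto_natCast_atTop_atTop)
  have hsmall : ∀ᶠ x : ℕ in atTop, (Real.log x) ^ K + 1 ≤ (x : ℝ) := by
    have h1 : (fun x : ℝ => (Real.log x) ^ K + 1) =o[atTop] fun x : ℝ => x := by
      refine Asymptotics.IsLittleO.add ?_ (Asymptotics.isLittleO_const_id_atTop 1)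
      have := isLittleO_log_rpow_rpow_atTop (s := 1) K one_pos
      simpa using this
    have h2 := (h1.bound (show (0 : ℝ) < 1 by norm_num)).and (eventually_ge_atTop (1 : ℝ))
    have h3 := tendsto_natCast_atTop_atTop (R := ℝ) |>.eventually h2
    filter_upwards [h3] with x hx
    have h4 := hx.1
    rw [one_mul, Real.norm_eq_abs, Real.norm_eq_abs, abs_of_pos (show (0 : ℝ) < x by linarith [hx.2])] at h4
    exact (le_abs_self _).trans h4
  filter_upwards [hω, hll.eventually_ge_atTop (max 1 (2 * C1 / (c * K))), hsmall, eventually_ge_atTop (max x0 3),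
    hll.eventually_ge_atTop (Real.log 2)] with x h1 h2 h3 h4 h5 y hy
  set l := Real.log (Real.log x) with hl
  have hl1 : 1 ≤ l := (le_max_left _ _).trans h2
  have hl2 : 2 * C1 / (c * K) ≤ l := (le_max_right _ _).trans h2
  have hxx0 : x0 ≤ x := (le_max_left _ _).trans h4
  have hx3 : 3 ≤ x := (le_max_right _ _).trans h4
  have hx3' : (3 : ℝ) ≤ x := by exact_mod_cast hx3
  have hx0' : (0 : ℝ) < x := by linarith
  have hlogx : 1 < Real.log x := by
    by_contra hlt
    have : Real.log (Real.log x) ≤ 0 := Real.log_nonpos (Real.log_nonneg (by linarith)) (not_lt.1 hlt)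
    linarith
  -- the point `y₀`
  obtain ⟨y0, hy0, hy0'⟩ : ∃ y0 : ℕ, (x : ℝ) * (Real.log x) ^ K ≤ y0 ∧ (y0 : ℝ) ≤ x * (Real.log x) ^ K + 1 :=
    ⟨⌈(x : ℝ) * (Real.log x) ^ K⌉₊, Nat.le_ceil _, (Nat.ceil_lt_add_one (by positivity)).le⟩
  have hyy : ⌈(x : ℝ) * (Real.log x) ^ K⌉₊ ≤ y := Nat.ceil_le.2 hy
  set y0' : ℕ := ⌈(x : ℝ) * (Real.log x) ^ K⌉₊ with hy0d
  have hyl : (x : ℝ) * (Real.log x) ^ K ≤ y0' := Nat.le_ceil _
  have hyu : (y0' : ℝ) ≤ x * (Real.log x) ^ K + 1 := (Nat.ceil_lt_add_one (by positivity)).le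
  have hLK1 : 1 ≤ (Real.log x) ^ K := Real.one_le_rpow hlogx.le hK.le
  have hxy : x ≤ y0' := by
    have : (x : ℝ) ≤ y0' := by nlinarith
    exact_mod_cast this
  have hy2 : (y0' : ℝ) ≤ x ^ 2 := by nlinarith
  have hy0pos : (0 : ℝ) < y0' := by
    have : (x : ℝ) ≤ y0' := by exact_mod_cast hxy
    linarith
  have hlogy : Real.log y0' ≤ 2 * Real.log x := by
    have := Real.log_le_log hy0pos hy2
    rwa [Real.log_pow] at this
  have hlogy1 : 1 < Real.log y0' := lt_of_lt_of_le hlogx (Real.log_le_log hx0' (by exact_mod_cast hxy))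
  set L := Real.log (Real.log y0') with hL
  have hL0 : 0 ≤ L := Real.log_nonneg hlogy1.le
  have hL2 : L ≤ 2 * l := by
    have : L ≤ Real.log (2 * Real.log x) := Real.log_le_log (by linarith) hlogy
    rw [Real.log_mul (by norm_num) (by linarith)] at this
    linarith
  set A := EW θ OP x y0' with hA
  have hA1 : c * K / 2 * l ≤ A := by
    have h6 := (hEW x y0' hxx0 hxy).1
    have h7 : K * l ≤ Real.log ((y0' : ℝ) / x) := by
      have : Real.log ((Real.log x) ^ K) ≤ Real.log ((y0' : ℝ) / x) := by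
        apply Real.log_le_log (by positivity)
        rw [le_div_iff₀ hx0']
        linarith
      rwa [Real.log_rpow (by linarith)] at this
    have h8 : 2 * C1 ≤ l * (c * K) := by rwa [div_le_iff₀ hcK] at hl2
    have h9 : c * (K * l) ≤ c * Real.log ((y0' : ℝ) / x) := mul_le_mul_of_nonneg_left h7 hc.le
    nlinarith
  have hA0 : 0 < A := lt_of_lt_of_le (by positivity) hA1
  have h6 := h1 y0' hxy
  rw [← hA, ← hL] at h6
  have hcK64 : (8 * C + 8) ^ 2 ≤ c * K := hK2
  have hs : C * √(A * L) ≤ A / 4 := by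
    have h7 : A * L ≤ (A / (4 * C)) ^ 2 := by
      have h8 : L ≤ A / (16 * C ^ 2) := by
        rw [le_div_iff₀ (by positivity)]
        have h9 : L * (16 * C ^ 2) ≤ 2 * l * (16 * C ^ 2) := mul_le_mul_of_nonneg_right hL2 (by positivity)
        have h10 : 64 * C ^ 2 ≤ c * K := by nlinarith
        nlinarith
      calc A * L ≤ A * (A / (16 * C ^ 2)) := mul_le_mul_of_nonneg_left h8 hA0.le
        _ = (A / (4 * C)) ^ 2 := by
            field_simp
            ring
    calc C * √(A * L) ≤ C * √((A / (4 * C)) ^ 2) := mul_le_mul_of_nonneg_left (Real.sqrt_le_sqrt h7) hC.le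
      _ = C * (A / (4 * C)) := by rw [Real.sqrt_sq (by positivity)]
      _ = A / 4 := by field_simp
  have hs2 : C * L ≤ A / 4 := by
    have h7 : C * L ≤ C * (2 * l) := mul_le_mul_of_nonneg_left hL2 hC.le
    have h10 : 16 * C ≤ c * K := by nlinarith
    nlinarith
  have h11 : 0 < (wn θ (fun p => X p ω) OP x y0' : ℝ) := by
    rw [abs_le] at h6
    have := h6.1
    rw [mul_add] at this
    linarith
  have h12 : 0 < wn θ (fun p => X p ω) OP x y0' := by exact_mod_cast h11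
  exact lt_of_lt_of_le h12 (wn_mono θ _ OP x hyy)

end Pool.Agent.L5helper86.RB
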