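import Pool.Agent.L5helper86.RB.Fin
import Pool.Agent.L5helper66.RB.N1
import Pool.Agent.L5helper10.RB.Ch
import Pool.Agent.L5helper79.RB.Wi
import Pool.Agent.L5helper22.RB.N2

/-!
# Random base: Chernoff bounds for the survivors
-/

set_option autoImplicit false

open Finset MeasureTheory ProbabilityTheory Filter Topology

namespace Pool.Agent.L5helper86.RB

open Pool.Agent.L5helper86.UL (Sys Dep)

variable {Ω : Type} [MeasurableSpace Ω] {P : Measure Ω} {X : ℕ → Ω → ℕ}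

open Classical in
/-- the residues at which `p` kills `n` -/
noncomputable def RKill (θ : ℝ) (S : Set ℕ) (p n : ℕ) : Finset ℕ :=
  if n ∈ S ∧ (p : ℝ) ≤ Real.exp (θ * n) then rts p n else ∅

lemma RKill_sub (θ : ℝ) (S : Set ℕ) (p n : ℕ) : RKill θ S p n ⊆ range p := by
  unfold RKill
  split_ifs
  · exact rts_sub p n
  · simp

lemma RKill_disj {θ : ℝ} {S : Set ℕ} (hS : ∀ n ∈ S, n.Prime ∧ n ≠ 2) {p : ℕ} (hp : p.Prime) {n m : ℕ} (hnm : n ≠ m) :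
    Disjoint (RKill θ S p n) (RKill θ S p m) := by
  unfold RKill
  split_ifs with h1 h2
  · rw [Finset.disjoint_left]
    intro b hb hb'
    unfold rts at hb hb'
    exact rts_disj (hS n h1.1).1 (hS n h1.1).2 (hS m h2.1).1 (hS m h2.1).2 hnm hp b
      ⟨(mem_filter.1 hb).2, (mem_filter.1 hb').2⟩
  all_goals simp

lemma AA_iff {θ : ℝ} (hθ : 0 ≤ θ) {S : Set ℕ} {n x : ℕ} (hn : n ∈ S) (hx : n ≤ x) {ω : Ω} (hω : ∀ p : ℕ, p.Prime → X p ω < p) :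
    ω ∈ AA X θ S n ↔ ∀ p ∈ pz (Real.exp (θ * x)), X p ω ∉ RKill θ S p n := by
  rw [AA_mem hn]
  show Sv (Real.exp (θ * n)) (fun p => X p ω) n ↔ _
  rw [Sv_iff (b := fun p => X p ω) hω]
  unfold RKill
  constructor
  · intro h p hp
    split_ifs with h1
    · exact h p (mem_pz.2 ⟨(mem_pz.1 hp).1, h1.2⟩)
    · simp
  · intro h p hp
    rw [mem_pz] at hp
    have h1 := h p (mem_pz.2 ⟨hp.1, hp.2.trans (Real.exp_le_exp.2 (mul_le_mul_of_nonneg_left (Nat.cast_le.2 hx) hθ))⟩)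
    rwa [if_pos ⟨hn, hp.2⟩] at h1

lemma AA_ae (h : Sys P X) {θ : ℝ} (hθ : 0 ≤ θ) {S : Set ℕ} {n x : ℕ} (hn : n ∈ S) (hx : n ≤ x) :
    P.real (AA X θ S n) = P.real {ω | ∀ p ∈ pz (Real.exp (θ * x)), X p ω ∉ RKill θ S p n} := by
  refine measureReal_congr ?_
  filter_upwards [ae_all h] with ω hω
  exact propext (AA_iff hθ hn hx hω)

lemma AA_orth1 (h : Sys P X) {θ : ℝ} (hθ : 0 ≤ θ) {S : Set ℕ} (hS : ∀ n ∈ S, n.Prime ∧ n ≠ 2) (T : Finset ℕ)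
    (hT : ∀ n ∈ T, n ∈ S) : P.real (⋂ n ∈ T, AA X θ S n) ≤ ∏ n ∈ T, P.real (AA X θ S n) := by
  have hle : ∀ n ∈ T, n ≤ T.sup id := fun n hn => le_sup (f := id) hn
  have h1 := neg_orth1 h (pz (Real.exp (θ * (T.sup id : ℕ)))) (fun p hp => (mem_pz.1 hp).1) (RKill θ S)
    (fun p _ n => RKill_sub θ S p n) (fun p hp n m hnm => RKill_disj hS (mem_pz.1 hp).1 hnm) T
  rw [prod_congr rfl fun n hn => AA_ae h hθ (hT n hn) (hle n hn)]
  refine le_trans (le_of_eq (measureReal_congr ?_)) h1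
  filter_upwards [ae_all h] with ω hω
  refine propext ?_
  show (ω ∈ ⋂ n ∈ T, AA X θ S n) ↔ (ω ∈ ⋂ n ∈ T, {ω | ∀ p ∈ pz (Real.exp (θ * (T.sup id : ℕ))), X p ω ∉ RKill θ S p n})
  simp only [Set.mem_iInter]
  refine forall₂_congr fun n hn => ?_
  exact AA_iff hθ (hT n hn) (hle n hn) hω

lemma AA_orth2 (h : Sys P X) {θ : ℝ} (hθ : 0 ≤ θ) {S : Set ℕ} (hS : ∀ n ∈ S, n.Prime ∧ n ≠ 2) (T : Finset ℕ)
    (hT : ∀ n ∈ T, n ∈ S) : P.real (⋂ n ∈ T, (AA X θ S n)ᶜ) ≤ ∏ n ∈ T, (1 - P.real (AA X θ S n)) := by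
  have hle : ∀ n ∈ T, n ≤ T.sup id := fun n hn => le_sup (f := id) hn
  have h1 := neg_orth2 h (pz (Real.exp (θ * (T.sup id : ℕ)))) (fun p hp => (mem_pz.1 hp).1) (RKill θ S)
    (fun p _ n => RKill_sub θ S p n) (fun p hp n m hnm => RKill_disj hS (mem_pz.1 hp).1 hnm) T
  rw [prod_congr rfl fun n hn => by rw [AA_ae h hθ (hT n hn) (hle n hn)]]
  refine le_trans (le_of_eq (measureReal_congr ?_)) h1
  filter_upwards [ae_all h] with ω hω
  refine propext ?_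
  show (ω ∈ ⋂ n ∈ T, (AA X θ S n)ᶜ) ↔ (ω ∈ ⋂ n ∈ T, {ω | ∀ p ∈ pz (Real.exp (θ * (T.sup id : ℕ))), X p ω ∉ RKill θ S p n}ᶜ)
  simp only [Set.mem_iInter, Set.mem_compl_iff]
  refine forall₂_congr fun n hn => ?_
  exact not_congr (AA_iff hθ (hT n hn) (hle n hn) hω)

/-- Chernoff bounds for the survivors -/
theorem AA_ch (h : Sys P X) {θ : ℝ} (hθ : 0 ≤ θ) {S : Set ℕ} (hS : ∀ n ∈ S, n.Prime ∧ n ≠ 2) (s : Finset ℕ) (K : ℝ) (hK : 0 ≤ K) :
    P.real {ω | 2 * √((∑ n ∈ s, P.real (AA X θ S n)) * K) + 2 * K ≤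
      |∑ n ∈ s, (AA X θ S n).indicator (fun _ => (1 : ℝ)) ω - ∑ n ∈ s, P.real (AA X θ S n)|} ≤ 4 * Real.exp (-K) := by
  classical
  have hP := h.prob
  set s' := s.filter (· ∈ S) with hs'
  have hT : ∀ T ⊆ s', ∀ n ∈ T, n ∈ S := fun T hT n hn => (mem_filter.1 (hT hn)).2
  have e1 : ∑ n ∈ s, P.real (AA X θ S n) = ∑ n ∈ s', P.real (AA X θ S n) := by
    rw [hs', sum_filter]
    refine sum_congr rfl fun n _ => ?_
    split_ifs with h1
    · rfl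
    · rw [AA_notMem h1]
      simp
  have e2 : ∀ ω, ∑ n ∈ s, (AA X θ S n).indicator (fun _ => (1 : ℝ)) ω =
      ∑ n ∈ s', (AA X θ S n).indicator (fun _ => (1 : ℝ)) ω := by
    intro ω
    rw [hs', sum_filter]
    refine sum_congr rfl fun n _ => ?_
    split_ifs with h1
    · rfl
    · rw [AA_notMem h1]
      simp
  rw [e1]
  simp_rw [e2]
  exact chern P (AA X θ S) (AA_meas h θ S) s' (fun T hTs => AA_orth1 h hθ hS T (hT T hTs))
    (fun T hTs => AA_orth2 h hθ hS T (hT T hTs)) K hK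

end Pool.Agent.L5helper86.RB
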