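import Pool.Agent.L5helper86.RB.Base

/-! Project RB (helper86): probabilities of avoiding sets of residues. -/

set_option autoImplicit false

namespace Pool.Agent.L5helper86.RB

open Finset MeasureTheory ProbabilityTheory
open Pool.Agent.L5helper86.UL (Sys Dep)

variable {Ω : Type} [MeasurableSpace Ω] {P : Measure Ω} {X : ℕ → Ω → ℕ}

theorem avoid_int (h : Sys P X) (B : ℕ → Finset ℕ) (s : Finset ℕ) : (∀ p ∈ s, p.Prime) → (∀ p ∈ s, B p ⊆ range p) →
    ∫ ω, (∏ p ∈ s, if X p ω ∈ B p then (0 : ℝ) else 1) ∂P = ∏ p ∈ s, (1 - (#(B p) : ℝ) / p) := by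
  classical
  have hP := h.prob
  induction s using Finset.induction_on with
  | empty => simp
  | insert p s hps ih =>
    intro hs hB
    have hp := hs p (mem_insert_self _ _)
    have hs' : ∀ q ∈ s, q.Prime := fun q hq => hs q (mem_insert_of_mem hq)
    have ih' := ih hs' fun q hq => hB q (mem_insert_of_mem hq)
    have hprod : ∀ a : ℕ → ℕ, |∏ q ∈ s, (if a q ∈ B q then (0 : ℝ) else 1)| ≤ 1 := by
      intro a
      rw [abs_prod]
      refine prod_le_one (fun _ _ => abs_nonneg _) fun q _ => ?_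
      split_ifs <;> simp
    have key := h.int_step hs' hp hps (G := fun r a => (if r ∈ B p then (0 : ℝ) else 1) *
      ∏ q ∈ s, (if a q ∈ B q then (0 : ℝ) else 1)) (fun r a b hab => by
        have e0 : ∏ q ∈ s, (if a q ∈ B q then (0 : ℝ) else 1) = ∏ q ∈ s, (if b q ∈ B q then (0 : ℝ) else 1) :=
          prod_congr rfl fun q hq => by rw [hab q hq]
        show (if r ∈ B p then (0 : ℝ) else 1) * _ = (if r ∈ B p then (0 : ℝ) else 1) * _
        rw [e0]) (M := 1) (fun r a => by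
        rw [abs_mul]
        have := hprod a
        split_ifs
        · simp
        · simpa using this)
    have e1 : (fun ω => ∏ q ∈ insert p s, (if X q ω ∈ B q then (0 : ℝ) else 1)) =
        fun ω => (if X p ω ∈ B p then (0 : ℝ) else 1) * ∏ q ∈ s, (if X q ω ∈ B q then (0 : ℝ) else 1) := by
      funext ω
      rw [prod_insert hps]
    rw [e1, key, prod_insert hps, ← ih']
    have e2 : ∀ r ∈ range p, ∫ ω, (if r ∈ B p then (0 : ℝ) else 1) * ∏ q ∈ s, (if X q ω ∈ B q then (0 : ℝ) else 1) ∂P =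
        (if r ∈ B p then (0 : ℝ) else 1) * ∫ ω, ∏ q ∈ s, (if X q ω ∈ B q then (0 : ℝ) else 1) ∂P := by
      intro r _
      rw [integral_const_mul]
    rw [sum_congr rfl e2, ← sum_mul]
    have e3 : ∑ r ∈ range p, (if r ∈ B p then (0 : ℝ) else 1) = p - #(B p) := by
      have h1 : ∑ r ∈ range p, (if r ∈ B p then (0 : ℝ) else 1) = ∑ r ∈ range p, (1 - if r ∈ B p then (1 : ℝ) else 0) := by
        refine sum_congr rfl fun r _ => ?_
        split_ifs <;> simp
      rw [h1, sum_sub_distrib, sum_const, card_range, nsmul_eq_mul, mul_one, ← sum_filter, sum_const, nsmul_eq_mul, mul_one]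
      congr 3
      ext r
      rw [mem_filter]
      exact ⟨fun h => h.2, fun h => ⟨hB p (mem_insert_self _ _) h, h⟩⟩
    rw [e3, ← mul_assoc]
    congr 1
    have hp0 : (p : ℝ) ≠ 0 := by exact_mod_cast hp.ne_zero
    field_simp

/-- the probability of avoiding sets of residues -/
theorem avoid_prob (h : Sys P X) (B : ℕ → Finset ℕ) (s : Finset ℕ) (hs : ∀ p ∈ s, p.Prime) (hB : ∀ p ∈ s, B p ⊆ range p) :
    P.real {ω | ∀ p ∈ s, X p ω ∉ B p} = ∏ p ∈ s, (1 - (#(B p) : ℝ) / p) := by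
  classical
  have hP := h.prob
  rw [← avoid_int h B s hs hB]
  have hm : MeasurableSet {ω | ∀ p ∈ s, X p ω ∉ B p} := by
    have e : {ω | ∀ p ∈ s, X p ω ∉ B p} = ⋂ p ∈ s, X p ⁻¹' {b | b ∉ B p} := by
      ext ω
      simp
    rw [e]
    exact Finset.measurableSet_biInter _ fun p _ => h.meas p MeasurableSet.of_discrete
  have e : (fun ω => ∏ p ∈ s, (if X p ω ∈ B p then (0 : ℝ) else 1)) =
      {ω | ∀ p ∈ s, X p ω ∉ B p}.indicator (fun _ => (1 : ℝ)) := by
    funext ω
    by_cases hω : ∀ p ∈ s, X p ω ∉ B p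
    · rw [Set.indicator_of_mem (show ω ∈ {ω | ∀ p ∈ s, X p ω ∉ B p} from hω)]
      exact prod_eq_one fun p hp => if_neg (hω p hp)
    · rw [Set.indicator_of_notMem (show ω ∉ {ω | ∀ p ∈ s, X p ω ∉ B p} from hω)]
      push Not at hω
      obtain ⟨p, hp, hpB⟩ := hω
      exact prod_eq_zero hp (if_pos hpB)
  rw [e, integral_indicator hm]
  simp [Measure.real]

lemma Sv_iff {z : ℝ} {b : ℕ → ℕ} {n : ℕ} (hb : ∀ p : ℕ, p.Prime → b p < p) :
    Sv z b n ↔ ∀ p ∈ pz z, b p ∉ rts p n := by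
  constructor
  · intro h p hp hbp
    rw [mem_pz] at hp
    unfold rts at hbp
    exact h p hp.1 hp.2 (mem_filter.1 hbp).2
  · intro h p hp hpz hq
    refine h p (mem_pz.2 ⟨hp, hpz⟩) ?_
    unfold rts
    exact mem_filter.2 ⟨mem_range.2 (hb p hp), hq⟩

lemma ae_all (h : Sys P X) : ∀ᵐ ω ∂P, ∀ p : ℕ, p.Prime → X p ω < p := by
  rw [ae_all_iff]
  intro p
  by_cases hp : p.Prime
  · filter_upwards [h.ae_lt hp] with ω hω _
    exact hω
  · exact Filter.Eventually.of_forall fun ω hp' => absurd hp' hp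

lemma rts_sub (p n : ℕ) : rts p n ⊆ range p := filter_subset _ _

theorem Sv_prob (h : Sys P X) (z : ℝ) (n : ℕ) : P.real {ω | Sv z (fun p => X p ω) n} = Pn z n := by
  have h1 : P.real {ω | Sv z (fun p => X p ω) n} = P.real {ω | ∀ p ∈ pz z, X p ω ∉ rts p n} := by
    refine measureReal_congr ?_
    filter_upwards [ae_all h] with ω hω
    exact propext (Sv_iff (b := fun p => X p ω) hω)
  rw [h1, avoid_prob h (fun p => rts p n) (pz z) (fun p hp => (mem_pz.1 hp).1) fun p _ => rts_sub p n]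
  rfl

theorem Sv_joint (h : Sys P X) {z z' : ℝ} (hz : z ≤ z') {n m : ℕ}
    (hd : ∀ p : ℕ, p.Prime → ∀ b, ¬ (qs p b n = 0 ∧ qs p b m = 0)) :
    P.real ({ω | Sv z (fun p => X p ω) n} ∩ {ω | Sv z' (fun p => X p ω) m}) ≤ Pn z n * Pn z' m := by
  classical
  set B1 : ℕ → Finset ℕ := fun p => if (p : ℝ) ≤ z then rts p n else ∅ with hB1
  have hB1s : ∀ p, B1 p ⊆ range p := by
    intro p
    simp only [hB1]
    split_ifs
    · exact rts_sub p n
    · simp
  have h1 : P.real ({ω | Sv z (fun p => X p ω) n} ∩ {ω | Sv z' (fun p => X p ω) m}) =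
      P.real {ω | ∀ p ∈ pz z', X p ω ∉ B1 p ∪ rts p m} := by
    refine measureReal_congr ?_
    filter_upwards [ae_all h] with ω hω
    refine propext ?_
    show (Sv z (fun p => X p ω) n ∧ Sv z' (fun p => X p ω) m) ↔ _
    rw [Sv_iff (b := fun p => X p ω) hω, Sv_iff (b := fun p => X p ω) hω]
    constructor
    · rintro ⟨h1, h2⟩ p hp
      rw [mem_union, not_or]
      refine ⟨?_, h2 p hp⟩
      simp only [hB1]
      split_ifs with h3
      · exact h1 p (mem_pz.2 ⟨(mem_pz.1 hp).1, h3⟩)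
      · simp
    · intro h1
      refine ⟨fun p hp hpX => ?_, fun p hp hpX => h1 p hp (mem_union_right _ hpX)⟩
      rw [mem_pz] at hp
      refine h1 p (mem_pz.2 ⟨hp.1, hp.2.trans hz⟩) (mem_union_left _ ?_)
      simp only [hB1]
      rw [if_pos hp.2]
      exact hpX
  rw [h1, avoid_prob h (fun p => B1 p ∪ rts p m) (pz z') (fun p hp => (mem_pz.1 hp).1)
    fun p _ => union_subset (hB1s p) (rts_sub p m)]
  have h2 : Pn z n = ∏ p ∈ pz z', (1 - (#(B1 p) : ℝ) / p) := by
    unfold Pn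
    have hsub : pz z ⊆ pz z' := fun p hp => by
      rw [mem_pz] at hp ⊢
      exact ⟨hp.1, hp.2.trans hz⟩
    rw [← prod_subset hsub fun p hp hp' => ?_]
    · refine prod_congr rfl fun p hp => ?_
      simp only [hB1]
      rw [if_pos (mem_pz.1 hp).2]
    · simp only [hB1]
      rw [if_neg fun h3 => hp' (mem_pz.2 ⟨(mem_pz.1 hp).1, h3⟩)]
      simp
  rw [h2]
  unfold Pn
  rw [← prod_mul_distrib]
  refine prod_le_prod (fun p hp => ?_) fun p hp => ?_
  · have hp1 := (mem_pz.1 hp).1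
    have hp0 : (0 : ℝ) < p := by exact_mod_cast hp1.pos
    have h3 : #(B1 p ∪ rts p m) ≤ p := by
      have := card_le_card (union_subset (hB1s p) (rts_sub p m))
      rwa [card_range] at this
    have h4 : (#(B1 p ∪ rts p m) : ℝ) / p ≤ 1 := by
      rw [div_le_one hp0]
      exact_mod_cast h3
    linarith
  · have hp1 := (mem_pz.1 hp).1
    have hp0 : (0 : ℝ) < p := by exact_mod_cast hp1.pos
    have hdis : Disjoint (B1 p) (rts p m) := by
      rw [Finset.disjoint_left]
      intro b hb hb'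
      simp only [hB1] at hb
      split_ifs at hb with h3
      · unfold rts at hb hb'
        exact hd p hp1 b ⟨(mem_filter.1 hb).2, (mem_filter.1 hb').2⟩
      · simp at hb
    rw [card_union_of_disjoint hdis]
    push_cast
    have h5 : (0 : ℝ) ≤ (#(B1 p) : ℝ) / p * ((#(rts p m) : ℝ) / p) := by positivity
    have h6 : ((#(B1 p) : ℝ) + #(rts p m)) / p = (#(B1 p) : ℝ) / p + (#(rts p m) : ℝ) / p := add_div _ _ _
    rw [h6]
    nlinarith

end Pool.Agent.L5helper86.RB
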