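import Pool.Agent.L5helper15.RB.W
import Pool.Agent.L5helper22.RB.Rt

/-!
# Random base: the ratio of the probabilities at two levels
-/

set_option autoImplicit false

namespace Pool.Agent.L5helper86.RB

theorem hratio : ∀ θ θ' : ℝ, 0 < θ → θ < θ' → ∀ ε : ℝ, 0 < ε → ∃ n0 : ℕ, ∀ n : ℕ, n0 ≤ n → n.Prime → n ≠ 2 →
      |Pn (Real.exp (θ' * n)) n - θ / θ' * Pn (Real.exp (θ * n)) n| ≤ ε * Pn (Real.exp (θ * n)) n :=
  fun θ θ' hθ hθ' => prob_ratio θ θ' hθ hθ' (rec_window θ θ' hθ hθ')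

end Pool.Agent.L5helper86.RB
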