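import Pool.Agent.L5helper86.RB.All

/-!
# Random base: the level of an integer base
-/

set_option autoImplicit false

open Finset MeasureTheory ProbabilityTheory Filter Topology

namespace Pool.Agent.L5helper86.RB

open Classical in
/-- the survivors up to `x` at the level of the square root of `(b^n + 1)/(b + 1)` -/
noncomputable def cq (b : ℕ) (a : ℕ → ℕ) (x : ℕ) : ℕ :=
  #((range (x + 1)).filter fun n => n ∈ OP ∧ Sv (√(((b ^ n + 1) / (b + 1) : ℕ) : ℝ)) a n)

lemma sq_up {b n : ℕ} (hb : 2 ≤ b) : √(((b ^ n + 1) / (b + 1) : ℕ) : ℝ) ≤ Real.exp (Real.log b / 2 * n) := by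
  have hb0 : (0 : ℝ) < b := by exact_mod_cast (by omega : 0 < b)
  have h1 : (b ^ n + 1) / (b + 1) ≤ b ^ n := by
    have hp : 1 ≤ b ^ n := Nat.one_le_pow _ _ (by omega)
    calc (b ^ n + 1) / (b + 1) ≤ (b ^ n * (b + 1)) / (b + 1) := Nat.div_le_div_right (by nlinarith)
      _ = b ^ n := Nat.mul_div_cancel _ (by omega)
  have h2 : ((((b ^ n + 1) / (b + 1) : ℕ)) : ℝ) ≤ (b : ℝ) ^ n := by exact_mod_cast h1
  have h3 : (b : ℝ) ^ n = (Real.exp (Real.log b / 2 * n)) ^ 2 := by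
    rw [← Real.exp_nat_mul]
    have : ((2 : ℕ) : ℝ) * (Real.log b / 2 * n) = (n : ℝ) * Real.log b := by push_cast; ring
    rw [this, Real.exp_nat_mul, Real.exp_log hb0]
  rw [h3] at h2
  calc √(((b ^ n + 1) / (b + 1) : ℕ) : ℝ) ≤ √((Real.exp (Real.log b / 2 * n)) ^ 2) := Real.sqrt_le_sqrt h2
    _ = _ := Real.sqrt_sq (Real.exp_pos _).le

lemma sq_low {b : ℕ} (hb : 2 ≤ b) {t : ℝ} (ht : t < Real.log b / 2) : ∃ n0 : ℕ, ∀ n : ℕ, n0 ≤ n → Odd n →
    Real.exp (t * n) ≤ √(((b ^ n + 1) / (b + 1) : ℕ) : ℝ) := by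
  have hb0 : (0 : ℝ) < b := by exact_mod_cast (by omega : 0 < b)
  obtain ⟨n0, hn0⟩ := exists_nat_ge (Real.log (b + 1) / (2 * (Real.log b / 2 - t)))
  refine ⟨n0, fun n hn hodd => ?_⟩
  have hd : b + 1 ∣ b ^ n + 1 := by
    have := hodd.nat_add_dvd_pow_add_pow b 1
    rwa [one_pow] at this
  have h1 : ((((b ^ n + 1) / (b + 1) : ℕ)) : ℝ) = ((b : ℝ) ^ n + 1) / (b + 1) := by
    rw [Nat.cast_div hd (by positivity)]
    push_cast
    ring
  rw [h1]
  apply Real.le_sqrt_of_sq_le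
  rw [le_div_iff₀ (by positivity)]
  have hnn : Real.log (b + 1) / (2 * (Real.log b / 2 - t)) ≤ n := hn0.trans (by exact_mod_cast hn)
  have hpos : 0 < 2 * (Real.log b / 2 - t) := by linarith
  rw [div_le_iff₀ hpos] at hnn
  have h2 : (Real.exp (t * n)) ^ 2 * (b + 1) = Real.exp (2 * (t * n) + Real.log (b + 1)) := by
    rw [Real.exp_add, Real.exp_log (by positivity), ← Real.exp_nat_mul]
    norm_num
  have h3 : (b : ℝ) ^ n = Real.exp (n * Real.log b) := by
    rw [Real.exp_nat_mul, Real.exp_log hb0]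
  rw [h2, h3]
  have h4 : Real.exp (2 * (t * n) + Real.log (b + 1)) ≤ Real.exp (n * Real.log b) := by
    apply Real.exp_le_exp.2
    nlinarith
  linarith

theorem sq_lim (a : ℕ → ℕ) (h : ∀ θ : ℝ, 0 < θ → Tendsto (fun x : ℕ => (cnt θ a OP x : ℝ) / EE 1 OP x) atTop (𝓝 (1 / θ)))
    (b : ℕ) (hb : 2 ≤ b) : Tendsto (fun x : ℕ => (cq b a x : ℝ) / EE 1 OP x) atTop (𝓝 (2 / Real.log b)) := by
  classical
  have hb1 : (1 : ℝ) < b := by exact_mod_cast (by omega : 1 < b)
  have hlog : 0 < Real.log b := Real.log_pos hb1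
  set t0 : ℝ := Real.log b / 2 with ht0
  have ht0p : 0 < t0 := by positivity
  have e0 : 2 / Real.log b = 1 / t0 := by rw [ht0]; field_simp
  rw [e0, Metric.tendsto_atTop]
  intro ε hε
  have hcont : ContinuousAt (fun t : ℝ => 1 / t) t0 := by
    apply ContinuousAt.div continuousAt_const continuousAt_id ht0p.ne'
  obtain ⟨δ, hδ, hδ'⟩ := Metric.continuousAt_iff.1 hcont (ε / 3) (by positivity)
  obtain ⟨t, ht, ht'⟩ := exists_between (show max 0 (t0 - δ) < t0 from max_lt ht0p (by linarith))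
  have htp : 0 < t := lt_of_le_of_lt (le_max_left _ _) ht
  have htd : t0 - δ < t := lt_of_le_of_lt (le_max_right _ _) ht
  have e1 := hδ' (show dist t t0 < δ by rw [Real.dist_eq, abs_lt]; constructor <;> linarith)
  rw [Real.dist_eq, abs_lt] at e1
  obtain ⟨n0, hn0⟩ := sq_low hb ht'
  obtain ⟨x1, h3⟩ := Metric.tendsto_atTop.1 (h t htp) (ε / 3) (by positivity)
  obtain ⟨x2, h4⟩ := Metric.tendsto_atTop.1 (h t0 ht0p) (ε / 3) (by positivity)
  obtain ⟨x3, h5⟩ := eventually_atTop.1 ((EE_tendsto one_pos).eventually_gt_atTop (max 0 (3 * n0 / ε)))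
  refine ⟨max x1 (max x2 x3), fun x hx => ?_⟩
  have a1 := h3 x ((le_max_left _ _).trans hx)
  have a2 := h4 x ((le_max_left _ _).trans ((le_max_right _ _).trans hx))
  have a3 := h5 x ((le_max_right _ _).trans ((le_max_right _ _).trans hx))
  have hE0 : 0 < EE 1 OP x := lt_of_le_of_lt (le_max_left _ _) a3
  have hE1 : 3 * n0 / ε < EE 1 OP x := lt_of_le_of_lt (le_max_right _ _) a3
  rw [div_lt_iff₀ hε] at hE1
  rw [Real.dist_eq, abs_lt] at a1 a2
  rw [Real.dist_eq, abs_lt]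
  have m1 : cnt t0 a OP x ≤ cq b a x := by
    unfold cnt cq
    refine card_le_card fun n hn => ?_
    rw [mem_filter] at hn ⊢
    exact ⟨hn.1, hn.2.1, fun p hp hpz => hn.2.2 p hp (hpz.trans (sq_up hb))⟩
  have m2 : cq b a x ≤ cnt t a OP x + n0 := by
    unfold cnt cq
    calc _ ≤ #(((range (x + 1)).filter fun n => n ∈ OP ∧ Sv (Real.exp (t * n)) a n) ∪ range n0) := by
          refine card_le_card fun n hn => ?_
          rw [mem_filter] at hn
          rw [mem_union, mem_filter]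
          by_cases h6 : n < n0
          · exact Or.inr (mem_range.2 h6)
          · left
            refine ⟨hn.1, hn.2.1, fun p hp hpz => hn.2.2 p hp (hpz.trans ?_)⟩
            have hOP : n.Prime ∧ n ≠ 2 := hn.2.1
            exact hn0 n (not_lt.1 h6) (hOP.1.odd_of_ne_two hOP.2)
      _ ≤ _ := by
          refine (card_union_le _ _).trans ?_
          rw [card_range]
  have m1' : (cnt t0 a OP x : ℝ) ≤ cq b a x := by exact_mod_cast m1
  have m2' : (cq b a x : ℝ) ≤ cnt t a OP x + n0 := by exact_mod_cast m2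
  have n1 := div_le_div_of_nonneg_right m1' hE0.le
  have n2 := div_le_div_of_nonneg_right m2' hE0.le
  rw [add_div] at n2
  have n3 : (n0 : ℝ) / EE 1 OP x < ε / 3 := by
    rw [div_lt_iff₀ hE0]
    linarith
  constructor
  · linarith [a2.1]
  · linarith [e1.2, a1.2]

end Pool.Agent.L5helper86.RB
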