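import Pool.Agent.L5helper86.RB.Sq
import Pool.Agent.L5helper86.RB.Rat
import Pool.Agent.L5helper2.RO.PROB
import Pool.Agent.L5helper2.RO.LAW
import Pool.Agent.L5helper2.RO.TRUE

/-!
# Random units, with the files of helper2
-/

set_option autoImplicit false

open Finset MeasureTheory ProbabilityTheory Filter Topology

namespace Pool.Agent.L5helper86.RB

open Pool.Agent.L5helper2.RO (W T Like)

/-- the pointwise ratio of the probabilities at the levels `θ` and `1` -/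
lemma ratio_pt {θ : ℝ} (hθ : 0 < θ) (ε : ℝ) (hε : 0 < ε) : ∃ n0 : ℕ, ∀ n : ℕ, n0 ≤ n → n.Prime → n ≠ 2 →
    |Pn (Real.exp (θ * n)) n - 1 / θ * Pn (Real.exp ((1 : ℝ) * n)) n| ≤ ε * Pn (Real.exp ((1 : ℝ) * n)) n := by
  rcases lt_trichotomy θ 1 with h | h | h
  · -- `Pn 1 = θ Pn θ ± ε' Pn θ`
    set η : ℝ := min (θ / 2) (ε * θ ^ 2 / 2) with hη
    have hη0 : 0 < η := lt_min (by positivity) (by positivity)
    obtain ⟨n0, hn0⟩ := hratio θ 1 hθ h η hη0
    refine ⟨n0, fun n hn hp h2 => ?_⟩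
    have h1 := hn0 n hn hp h2
    set A := Pn (Real.exp (θ * n)) n with hA
    set B := Pn (Real.exp ((1 : ℝ) * n)) n with hB
    have hA0 : 0 ≤ A := Pn_nonneg
    rw [div_one] at h1
    have h3 : |B - θ * A| ≤ ε * θ ^ 2 / 2 * A := h1.trans (mul_le_mul_of_nonneg_right (min_le_right _ _) hA0)
    have h4 : |B - θ * A| ≤ θ / 2 * A := h1.trans (mul_le_mul_of_nonneg_right (min_le_left _ _) hA0)
    have h5 : θ / 2 * A ≤ B := by
      rw [abs_le] at h4
      linarith [h4.1]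
    have e : A - 1 / θ * B = -((B - θ * A) / θ) := by
      field_simp
      ring
    rw [e, abs_neg, abs_div, abs_of_pos hθ, div_le_iff₀ hθ]
    refine h3.trans ?_
    have h6 : ε * θ * (θ / 2 * A) ≤ ε * θ * B := mul_le_mul_of_nonneg_left h5 (by positivity)
    nlinarith [h6]
  · subst h
    refine ⟨0, fun n _ _ _ => ?_⟩
    rw [one_div_one, one_mul, one_mul, sub_self, abs_zero]
    exact mul_nonneg hε.le Pn_nonneg
  · exact hratio 1 θ one_pos h ε hε

lemma Pn_anti {z z' : ℝ} (hz : z ≤ z') (n : ℕ) : Pn z' n ≤ Pn z n := by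
  unfold Pn
  have hsub : pz z ⊆ pz z' := fun p hp => by
    rw [mem_pz] at hp ⊢
    exact ⟨hp.1, hp.2.trans hz⟩
  have hfac : ∀ p ∈ pz z', 0 ≤ 1 - (#(rts p n) : ℝ) / p ∧ 1 - (#(rts p n) : ℝ) / p ≤ 1 := by
    intro p hp
    have hp1 := (mem_pz.1 hp).1
    have hp0 : (0 : ℝ) < p := by exact_mod_cast hp1.pos
    have h1 : #(rts p n) ≤ p := by
      have := card_le_card (rts_sub p n)
      rwa [card_range] at this
    have h2 : (#(rts p n) : ℝ) / p ≤ 1 := by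
      rw [div_le_one hp0]
      exact_mod_cast h1
    have h3 : 0 ≤ (#(rts p n) : ℝ) / p := by positivity
    constructor <;> linarith
  rw [← prod_sdiff hsub]
  have h1 : ∏ p ∈ pz z' \ pz z, (1 - (#(rts p n) : ℝ) / p) ≤ 1 :=
    prod_le_one (fun p hp => (hfac p (mem_sdiff.1 hp).1).1) fun p hp => (hfac p (mem_sdiff.1 hp).1).2
  have h2 : 0 ≤ ∏ p ∈ pz z, (1 - (#(rts p n) : ℝ) / p) := prod_nonneg fun p hp => (hfac p (hsub hp)).1
  calc _ ≤ 1 * ∏ p ∈ pz z, (1 - (#(rts p n) : ℝ) / p) := mul_le_mul_of_nonneg_right h1 h2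
    _ = _ := one_mul _

/-- the product over the primes `l ≡ 1 (mod n)` only -/
noncomputable def Qn (b n : ℕ) : ℝ := ∏ l ∈ T b n, (1 - ((n : ℝ) - 1) / l)

lemma mem_T {b n l : ℕ} : l ∈ T b n ↔ l.Prime ∧ l ^ 2 ≤ W b n ∧ l % n = 1 := by
  unfold T
  rw [mem_filter, mem_range]
  constructor
  · exact fun h => h.2
  · intro h
    refine ⟨?_, h⟩
    have h1 := h.1.one_lt
    nlinarith [h.2.1]

lemma W_sqrt {b n l : ℕ} : l ^ 2 ≤ W b n ↔ (l : ℝ) ≤ √(((b ^ n + 1) / (b + 1) : ℕ) : ℝ) := by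
  rw [Real.le_sqrt (Nat.cast_nonneg _)]
  unfold W
  rw [← Nat.cast_pow, Nat.cast_le]
  exact Nat.cast_nonneg _

lemma T_pz {b n : ℕ} : T b n ⊆ pz (√(((b ^ n + 1) / (b + 1) : ℕ) : ℝ)) := fun l hl => by
  rw [mem_T] at hl
  rw [mem_pz]
  exact ⟨hl.1, W_sqrt.1 hl.2.1⟩

/-- the primes of `T b n` -/
lemma T_ge {b n l : ℕ} (hn : n.Prime) (hn2 : n ≠ 2) (hl : l ∈ T b n) : ∃ k : ℕ, 2 ≤ k ∧ l = k * n + 1 := by
  rw [mem_T] at hl
  obtain ⟨h1, _, h3⟩ := hl
  have h4 := Nat.div_add_mod l n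
  rw [h3] at h4
  refine ⟨l / n, ?_, by rw [mul_comm]; exact h4.symm⟩
  by_contra hlt
  have h5 : l / n = 0 ∨ l / n = 1 := by
    rcases hq : l / n with _ | _ | q
    · exact Or.inl rfl
    · exact Or.inr rfl
    · exact absurd (by rw [hq]; omega) hlt
  rcases h5 with h5 | h5
  · rw [h5] at h4
    have := h1.two_le
    omega
  · rw [h5] at h4
    have hodd := hn.odd_of_ne_two hn2
    have h6 : Even l := by
      rw [← h4, mul_one]
      exact hodd.add_one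
    have h7 := (h1.even_iff).1 h6
    have h8 := hn.two_le
    omega

lemma Qn_fac {b n l : ℕ} (hn : n.Prime) (hn2 : n ≠ 2) (hl : l ∈ T b n) :
    0 ≤ 1 - ((n : ℝ) - 1) / l ∧ 0 ≤ 1 - ((n : ℝ) - 1) / ((l : ℝ) - 1) ∧
      ∃ k : ℕ, 2 ≤ k ∧ l = k * n + 1 ∧
        1 - ((n : ℝ) - 1) / ((l : ℝ) - 1) ≤ 1 - ((n : ℝ) - 1) / l ∧
        (1 - ((n : ℝ) - 1) / l) * (1 - 1 / (n * (k * (k - 1)))) ≤ 1 - ((n : ℝ) - 1) / ((l : ℝ) - 1) := by
  obtain ⟨k, hk, rfl⟩ := T_ge hn hn2 hl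
  have hnr : (2 : ℝ) ≤ n := by exact_mod_cast hn.two_le
  have hkr : (2 : ℝ) ≤ k := by exact_mod_cast hk
  have hkn : 0 < (k : ℝ) * n := by positivity
  push_cast
  have e1 : (k : ℝ) * n + 1 - 1 = k * n := by ring
  rw [e1]
  have h1 : ((n : ℝ) - 1) / (k * n + 1) ≤ ((n : ℝ) - 1) / (k * n) :=
    div_le_div_of_nonneg_left (by linarith) hkn (by linarith)
  have h2 : ((n : ℝ) - 1) / (k * n) ≤ 1 := by
    rw [div_le_one hkn]
    nlinarith
  refine ⟨by linarith, by linarith, k, hk, rfl, by linarith, ?_⟩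
  -- `(1 - (n-1)/(kn+1)) (1 - 1/(n k (k-1))) ≤ 1 - (n-1)/(kn)`
  have h3 : 1 - ((n : ℝ) - 1) / (k * n) = (k * n - n + 1) / (k * n) := by field_simp; ring
  have h4 : 1 - ((n : ℝ) - 1) / (k * n + 1) = (k * n - n + 2) / (k * n + 1) := by field_simp; ring
  have h5 : 1 - 1 / ((n : ℝ) * (k * (k - 1))) = (n * (k * (k - 1)) - 1) / (n * (k * (k - 1))) := by
    have : (n : ℝ) * (k * (k - 1)) ≠ 0 := by
      have : 0 < (k : ℝ) - 1 := by linarith
      positivity
    rw [eq_div_iff this, sub_mul, one_mul, div_mul_cancel₀ _ this]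
  rw [h3, h4, h5, div_mul_div_comm, div_le_div_iff₀ (by
    have : 0 < (k : ℝ) - 1 := by linarith
    positivity) hkn]
  have hk1 : 0 < (k : ℝ) - 1 := by linarith
  -- (kn - n + 2)(n k (k-1) - 1) k n ≤ (kn - n + 1) (kn+1) n k (k-1)
  have key : (k * n - n + 2 : ℝ) * (n * (k * (k - 1)) - 1) ≤ (k * n - n + 1) * ((k * n + 1) * (k - 1)) := by
    nlinarith [mul_pos hkn hk1, mul_pos hk1 hk1, mul_nonneg (mul_nonneg (by linarith : (0:ℝ) ≤ n - 2) hk1.le) hk1.le]
  have := mul_le_mul_of_nonneg_right key hkn.le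
  nlinarith [this]

lemma P_le_Qn {b n : ℕ} (hn : n.Prime) (hn2 : n ≠ 2) : L5helper2.RO.P b n ≤ Qn b n := by
  unfold L5helper2.RO.P Qn
  refine prod_le_prod (fun l hl => (Qn_fac hn hn2 hl).2.1) fun l hl => ?_
  obtain ⟨_, _, _, _, _, h, _⟩ := Qn_fac hn hn2 hl
  exact h

lemma Qn_nonneg {b n : ℕ} (hn : n.Prime) (hn2 : n ≠ 2) : 0 ≤ Qn b n :=
  prod_nonneg fun _ hl => (Qn_fac hn hn2 hl).1

lemma P_nonneg' {b n : ℕ} (hn : n.Prime) (hn2 : n ≠ 2) : 0 ≤ L5helper2.RO.P b n :=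
  prod_nonneg fun _ hl => (Qn_fac hn hn2 hl).2.1

lemma Qn_le_one {b n : ℕ} (hn : n.Prime) (hn2 : n ≠ 2) : Qn b n ≤ 1 := by
  refine prod_le_one (fun l hl => (Qn_fac hn hn2 hl).1) fun l _ => ?_
  have hnr : (1 : ℝ) ≤ n := by exact_mod_cast hn.one_lt.le
  have : 0 ≤ ((n : ℝ) - 1) / l := div_nonneg (by linarith) (Nat.cast_nonneg _)
  linarith

lemma prod_sub_ge {ι : Type} (s : Finset ι) (a : ι → ℝ) (h0 : ∀ i ∈ s, 0 ≤ a i) (h1 : ∀ i ∈ s, a i ≤ 1) :
    1 - ∑ i ∈ s, a i ≤ ∏ i ∈ s, (1 - a i) := by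
  classical
  induction s using Finset.induction_on with
  | empty => simp
  | insert i s hi ih =>
    rw [sum_insert hi, prod_insert hi]
    have h2 := ih (fun j hj => h0 j (mem_insert_of_mem hj)) fun j hj => h1 j (mem_insert_of_mem hj)
    have h3 := h0 i (mem_insert_self i s)
    have h4 := h1 i (mem_insert_self i s)
    have h5 : 0 ≤ ∑ j ∈ s, a j := sum_nonneg fun j hj => h0 j (mem_insert_of_mem hj)
    nlinarith [mul_le_mul_of_nonneg_left h2 (sub_nonneg.2 h4), mul_nonneg h3 h5]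

lemma tele (K : ℕ) : ∑ k ∈ Icc 2 K, (1 : ℝ) / ((k : ℝ) * (k - 1)) ≤ 1 := by
  rcases Nat.lt_or_ge K 2 with h | h
  · rw [Icc_eq_empty (by omega), sum_empty]
    norm_num
  · have : ∑ k ∈ Icc 2 K, (1 : ℝ) / ((k : ℝ) * (k - 1)) = 1 - 1 / K := by
      induction K, h using Nat.le_induction with
      | base => norm_num
      | succ K hK ih =>
        rw [sum_Icc_succ_top (by omega), ih]
        have : (2 : ℝ) ≤ K := by exact_mod_cast hK
        push_cast
        rw [add_sub_cancel_right]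
        field_simp
        ring
    rw [this]
    have : (0 : ℝ) ≤ 1 / K := by positivity
    linarith

lemma Qn_le_P {b n : ℕ} (hn : n.Prime) (hn2 : n ≠ 2) : (1 - 1 / (n : ℝ)) * Qn b n ≤ L5helper2.RO.P b n := by
  classical
  have hn0 : (0 : ℝ) < n := by exact_mod_cast hn.pos
  set a : ℕ → ℝ := fun l => 1 / ((n : ℝ) * (((l / n : ℕ) : ℝ) * (((l / n : ℕ) : ℝ) - 1))) with ha
  have hdiv : ∀ k : ℕ, (k * n + 1) / n = k := by
    intro k
    rw [mul_comm, Nat.mul_add_div hn.pos, Nat.div_eq_of_lt hn.one_lt, add_zero]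
  have hk1 : ∀ k : ℕ, 2 ≤ k → 1 ≤ (n : ℝ) * ((k : ℝ) * (k - 1)) := by
    intro k hk
    have h1 : (2 : ℝ) ≤ k := by exact_mod_cast hk
    have h2 : (1 : ℝ) ≤ n := by exact_mod_cast hn.one_lt.le
    have h3 : (1 : ℝ) ≤ (k : ℝ) * (k - 1) := by nlinarith
    nlinarith
  have hfac : ∀ l ∈ T b n, 0 ≤ a l ∧ a l ≤ 1 ∧ (1 - ((n : ℝ) - 1) / l) * (1 - a l) ≤ 1 - ((n : ℝ) - 1) / ((l : ℝ) - 1) := by
    intro l hl
    obtain ⟨_, _, k, hk, e, _, h⟩ := Qn_fac hn hn2 hl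
    have e2 : l / n = k := by rw [e, hdiv]
    simp only [ha]
    rw [e2]
    have h3 := hk1 k hk
    refine ⟨by positivity, ?_, h⟩
    rw [div_le_one (by linarith)]
    exact h3
  have h1 : Qn b n * ∏ l ∈ T b n, (1 - a l) ≤ L5helper2.RO.P b n := by
    unfold Qn L5helper2.RO.P
    rw [← prod_mul_distrib]
    refine prod_le_prod (fun l hl => ?_) fun l hl => (hfac l hl).2.2
    exact mul_nonneg (Qn_fac hn hn2 hl).1 (sub_nonneg.2 (hfac l hl).2.1)
  have h2 := prod_sub_ge (T b n) a (fun l hl => (hfac l hl).1) fun l hl => (hfac l hl).2.1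
  have h3 : ∑ l ∈ T b n, a l ≤ 1 / n := by
    have hinj : Set.InjOn (fun l : ℕ => l / n) (T b n : Set ℕ) := by
      intro l hl l' hl' he
      obtain ⟨k, _, e⟩ := T_ge hn hn2 hl
      obtain ⟨k', _, e'⟩ := T_ge hn hn2 hl'
      simp only [e, e', hdiv] at he
      rw [e, e', he]
    have e1 : ∑ l ∈ T b n, a l = ∑ k ∈ (T b n).image (fun l => l / n), (1 : ℝ) / n * (1 / ((k : ℝ) * (k - 1))) := by
      rw [sum_image hinj]
      refine sum_congr rfl fun l _ => ?_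
      simp only [ha]
      rw [div_mul_div_comm, one_mul]
    rw [e1, ← mul_sum]
    have hsub : (T b n).image (fun l => l / n) ⊆ Icc 2 (W b n) := by
      intro k hk
      rw [mem_image] at hk
      obtain ⟨l, hl, rfl⟩ := hk
      obtain ⟨k, hk, e⟩ := T_ge hn hn2 hl
      have h5 := (mem_T.1 hl).2.1
      have h6 := (mem_T.1 hl).1.one_lt
      rw [mem_Icc]
      refine ⟨?_, ?_⟩
      · rw [e, hdiv]
        exact hk
      · calc l / n ≤ l := Nat.div_le_self _ _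
          _ ≤ W b n := by nlinarith
    have h7 : ∑ k ∈ (T b n).image (fun l => l / n), (1 : ℝ) / ((k : ℝ) * (k - 1)) ≤ 1 := by
      refine le_trans (sum_le_sum_of_subset_of_nonneg hsub fun k hk _ => ?_) (tele _)
      have h8 : (2 : ℝ) ≤ k := by exact_mod_cast (mem_Icc.1 hk).1
      have : 0 ≤ (k : ℝ) - 1 := by linarith
      positivity
    calc (1 : ℝ) / n * ∑ k ∈ (T b n).image (fun l => l / n), (1 : ℝ) / ((k : ℝ) * (k - 1)) ≤ 1 / n * 1 :=
          mul_le_mul_of_nonneg_left h7 (by positivity)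
      _ = 1 / n := mul_one _
  have h4 : (1 - 1 / (n : ℝ)) ≤ ∏ l ∈ T b n, (1 - a l) := by linarith
  calc (1 - 1 / (n : ℝ)) * Qn b n ≤ (∏ l ∈ T b n, (1 - a l)) * Qn b n := mul_le_mul_of_nonneg_right h4 (Qn_nonneg hn hn2)
    _ = Qn b n * ∏ l ∈ T b n, (1 - a l) := mul_comm _ _
    _ ≤ _ := h1

/-- the probability at the level of the square root -/
lemma Pn_Qn {b n : ℕ} (hn : n.Prime) (hn2 : n ≠ 2) :
    (1 - 1 / (n : ℝ)) * Qn b n ≤ Pn (√(((b ^ n + 1) / (b + 1) : ℕ) : ℝ)) n ∧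
      Pn (√(((b ^ n + 1) / (b + 1) : ℕ) : ℝ)) n ≤ Qn b n := by
  classical
  have hn0 : (1 : ℝ) ≤ n := by exact_mod_cast hn.one_lt.le
  have hinv : 1 / (n : ℝ) ≤ 1 := by
    rw [div_le_one (by linarith)]
    exact hn0
  have hinv0 : 0 ≤ 1 / (n : ℝ) := by positivity
  have h1 : Pn (√(((b ^ n + 1) / (b + 1) : ℕ) : ℝ)) n =
      (∏ p ∈ pz (√(((b ^ n + 1) / (b + 1) : ℕ) : ℝ)) \ T b n, (if p = n then 1 - 1 / (n : ℝ) else 1)) * Qn b n := by
    unfold Pn Qn
    rw [← prod_sdiff (T_pz (b := b) (n := n))]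
    congr 1
    · refine prod_congr rfl fun p hp => ?_
      replace hp := Finset.mem_sdiff.1 hp
      have hp1 := mem_pz.1 hp.1
      rw [card_rts hn hn2 hp1.1]
      by_cases hpn : p = n
      · rw [if_pos hpn, if_pos hpn, hpn, Nat.cast_one]
      · rw [if_neg hpn, if_neg hpn, if_neg, Nat.cast_zero, zero_div, sub_zero]
        intro h3
        exact hp.2 (mem_T.2 ⟨hp1.1, W_sqrt.2 hp1.2, h3⟩)
    · refine prod_congr rfl fun p hp => ?_
      have h2 := mem_T.1 hp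
      rw [card_rts hn hn2 h2.1, if_neg, if_pos h2.2.2, Nat.cast_sub hn.one_lt.le, Nat.cast_one]
      rintro rfl
      rw [Nat.mod_self] at h2
      exact absurd h2.2.2 (by norm_num)
  rw [h1, prod_ite_eq' ]
  split_ifs with h3
  · exact ⟨le_rfl, mul_le_of_le_one_left (Qn_nonneg hn hn2) (by linarith)⟩
  · exact ⟨mul_le_mul_of_nonneg_right (by linarith) (Qn_nonneg hn hn2), by rw [one_mul]⟩

/-- the probability in the model of units is close to that of the random base -/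
lemma P_Pn {b n : ℕ} (hn : n.Prime) (hn2 : n ≠ 2) :
    |L5helper2.RO.P b n - Pn (√(((b ^ n + 1) / (b + 1) : ℕ) : ℝ)) n| ≤
      2 / n * Pn (√(((b ^ n + 1) / (b + 1) : ℕ) : ℝ)) n := by
  obtain ⟨h1, h2⟩ := Pn_Qn (b := b) hn hn2
  have h3 := Qn_le_P (b := b) hn hn2
  have h4 := P_le_Qn (b := b) hn hn2
  have hn0 : (2 : ℝ) ≤ n := by exact_mod_cast hn.two_le
  have h5 : 1 / (n : ℝ) ≤ 1 / 2 := one_div_le_one_div_of_le (by norm_num) hn0
  have hQ := Qn_nonneg (b := b) hn hn2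
  have h6 : Qn b n ≤ 2 * Pn (√(((b ^ n + 1) / (b + 1) : ℕ) : ℝ)) n := by nlinarith
  have h7 : 1 / (n : ℝ) * Qn b n ≤ 2 / n * Pn (√(((b ^ n + 1) / (b + 1) : ℕ) : ℝ)) n := by
    calc 1 / (n : ℝ) * Qn b n ≤ 1 / n * (2 * Pn (√(((b ^ n + 1) / (b + 1) : ℕ) : ℝ)) n) :=
          mul_le_mul_of_nonneg_left h6 (by positivity)
      _ = _ := by ring
  rw [abs_le]
  constructor <;> nlinarith

/-- the pointwise limit -/
theorem P_ratio {b : ℕ} (hb : 2 ≤ b) (ε : ℝ) (hε : 0 < ε) : ∃ n0 : ℕ, ∀ n : ℕ, n0 ≤ n → n.Prime → n ≠ 2 →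
    |L5helper2.RO.P b n - 2 / Real.log b * Pn (Real.exp ((1 : ℝ) * n)) n| ≤ ε * Pn (Real.exp ((1 : ℝ) * n)) n := by
  have hb1 : (1 : ℝ) < b := by exact_mod_cast (by omega : 1 < b)
  have hlog : 0 < Real.log b := Real.log_pos hb1
  set t0 : ℝ := Real.log b / 2 with ht0
  have ht0p : 0 < t0 := by positivity
  have e0 : 2 / Real.log b = 1 / t0 := by rw [ht0]; field_simp
  rw [e0]
  have hcont : ContinuousAt (fun t : ℝ => 1 / t) t0 := by
    apply ContinuousAt.div continuousAt_const continuousAt_id ht0p.ne'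
  obtain ⟨δ, hδ, hδ'⟩ := Metric.continuousAt_iff.1 hcont (ε / 4) (by positivity)
  obtain ⟨t, ht, ht'⟩ := exists_between (show max 0 (t0 - δ) < t0 from max_lt ht0p (by linarith))
  have htp : 0 < t := lt_of_le_of_lt (le_max_left _ _) ht
  have htd : t0 - δ < t := lt_of_le_of_lt (le_max_right _ _) ht
  have e1 := hδ' (show dist t t0 < δ by rw [Real.dist_eq, abs_lt]; constructor <;> linarith)
  rw [Real.dist_eq, abs_lt] at e1
  obtain ⟨n1, hn1⟩ := sq_low hb ht'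
  obtain ⟨n2, hn2⟩ := ratio_pt htp (ε / 4) (by positivity)
  obtain ⟨n3, hn3⟩ := ratio_pt ht0p (ε / 4) (by positivity)
  obtain ⟨n4, hn4⟩ := exists_nat_ge (4 * (1 / t0 + ε / 2) / ε)
  refine ⟨max (max n1 n2) (max n3 n4), fun n hn hp h2 => ?_⟩
  have m1 : n1 ≤ n := (le_max_left _ _).trans ((le_max_left _ _).trans hn)
  have m2 : n2 ≤ n := (le_max_right _ _).trans ((le_max_left _ _).trans hn)
  have m3 : n3 ≤ n := (le_max_left _ _).trans ((le_max_right _ _).trans hn)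
  have m4 : n4 ≤ n := (le_max_right _ _).trans ((le_max_right _ _).trans hn)
  set B := Pn (Real.exp ((1 : ℝ) * n)) n with hB
  have hB0 : 0 ≤ B := Pn_nonneg
  set C := Pn (√(((b ^ n + 1) / (b + 1) : ℕ) : ℝ)) n with hC
  have hC0 : 0 ≤ C := Pn_nonneg
  have k1 : C ≤ Pn (Real.exp (t * n)) n := Pn_anti (hn1 n m1 (hp.odd_of_ne_two h2)) n
  have k2 : Pn (Real.exp (t0 * n)) n ≤ C := Pn_anti (sq_up hb) n
  have k3 := hn2 n m2 hp h2
  have k4 := hn3 n m3 hp h2
  rw [abs_le] at k3 k4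
  have k5 := P_Pn (b := b) hp h2
  rw [abs_le] at k5
  have hnpos : (0 : ℝ) < n := by exact_mod_cast hp.pos
  have k6 : 2 / (n : ℝ) * (1 / t0 + ε / 2) ≤ ε / 2 := by
    have h6 : 4 * (1 / t0 + ε / 2) / ε ≤ n := hn4.trans (by exact_mod_cast m4)
    rw [div_le_iff₀ hε] at h6
    rw [div_mul_eq_mul_div, div_le_iff₀ hnpos]
    linarith
  have k7 : C ≤ (1 / t0 + ε / 2) * B := by nlinarith [e1.2, k3.2]
  have k8 : (1 / t0 - ε / 4) * B ≤ C := by nlinarith [k4.1]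
  have k9 : 2 / (n : ℝ) * C ≤ ε / 2 * B := by
    calc 2 / (n : ℝ) * C ≤ 2 / (n : ℝ) * ((1 / t0 + ε / 2) * B) := mul_le_mul_of_nonneg_left k7 (by positivity)
      _ = (2 / (n : ℝ) * (1 / t0 + ε / 2)) * B := by ring
      _ ≤ _ := mul_le_mul_of_nonneg_right k6 hB0
  rw [abs_le]
  constructor
  · nlinarith [k5.1]
  · nlinarith [k5.2]

/-- sums -/
theorem sum_ratio (f : ℕ → ℝ) (hf0 : ∀ n ∈ OP, 0 ≤ f n) (hf1 : ∀ n ∈ OP, f n ≤ 1) (c : ℝ) (hc : 0 ≤ c)
    (h : ∀ ε : ℝ, 0 < ε → ∃ n0 : ℕ, ∀ n : ℕ, n0 ≤ n → n ∈ OP →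
      |f n - c * Pn (Real.exp ((1 : ℝ) * n)) n| ≤ ε * Pn (Real.exp ((1 : ℝ) * n)) n) :
    Tendsto (fun x : ℕ => (∑ n ∈ range (x + 1), OP.indicator f n) / EE 1 OP x) atTop (𝓝 c) := by
  rw [Metric.tendsto_atTop]
  intro ε hε
  obtain ⟨n0, hn0⟩ := h (ε / 2) (by positivity)
  have hev := (EE_tendsto one_pos).eventually_gt_atTop (max 0 (2 * ((1 + c) * n0) / ε))
  obtain ⟨x1, hx1⟩ := eventually_atTop.1 hev
  refine ⟨x1, fun x hx => ?_⟩
  have h1 := hx1 x hx
  have hE0 : 0 < EE 1 OP x := lt_of_le_of_lt (le_max_left _ _) h1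
  have hE1 : 2 * ((1 + c) * n0) / ε < EE 1 OP x := lt_of_le_of_lt (le_max_right _ _) h1
  rw [div_lt_iff₀ hε] at hE1
  rw [Real.dist_eq]
  have e : (∑ n ∈ range (x + 1), OP.indicator f n) / EE 1 OP x - c =
      ((∑ n ∈ range (x + 1), OP.indicator f n) - c * EE 1 OP x) / EE 1 OP x := by
    field_simp
  rw [e, abs_div, abs_of_pos hE0, div_lt_iff₀ hE0]
  have key : |(∑ n ∈ range (x + 1), OP.indicator f n) - c * EE 1 OP x| ≤ (1 + c) * n0 + ε / 2 * EE 1 OP x := by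
    rw [EE_OP' 1 x, mul_sum, ← sum_sub_distrib]
    refine (abs_sum_le_sum_abs _ _).trans ?_
    have hterm : ∀ n ∈ range (x + 1), |OP.indicator f n -
        c * OP.indicator (fun n : ℕ => Pn (Real.exp ((1 : ℝ) * n)) n) n| ≤
        (if n < n0 then 1 + c else 0) + ε / 2 * OP.indicator (fun n : ℕ => Pn (Real.exp ((1 : ℝ) * n)) n) n := by
      intro n _
      by_cases hn : n ∈ OP
      · rw [Set.indicator_of_mem hn, Set.indicator_of_mem hn]
        have ha : 0 ≤ Pn (Real.exp ((1 : ℝ) * n)) n := Pn_nonneg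
        have ha1 : Pn (Real.exp ((1 : ℝ) * n)) n ≤ 1 := Pn_le_one'
        have hb0 := hf0 n hn
        have hb1 := hf1 n hn
        split_ifs with h2
        · rw [abs_le]
          have h3 : 0 ≤ c * Pn (Real.exp ((1 : ℝ) * n)) n := mul_nonneg hc ha
          have h4 : c * Pn (Real.exp ((1 : ℝ) * n)) n ≤ c := mul_le_of_le_one_right hc ha1
          have h5 : 0 ≤ ε / 2 * Pn (Real.exp ((1 : ℝ) * n)) n := by positivity
          constructor <;> linarith
        · rw [zero_add]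
          exact hn0 n (not_lt.1 h2) hn
      · rw [Set.indicator_of_notMem hn, Set.indicator_of_notMem hn]
        split_ifs
        · simp
          linarith
        · simp
    refine (sum_le_sum hterm).trans ?_
    rw [sum_add_distrib, ← mul_sum]
    refine add_le_add ?_ le_rfl
    rw [← sum_filter, sum_const, nsmul_eq_mul, mul_comm]
    have h3 : #((range (x + 1)).filter fun n => n < n0) ≤ n0 := by
      calc _ ≤ #(range n0) := card_le_card fun n hn => mem_range.2 (mem_filter.1 hn).2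
        _ = n0 := card_range _
    have h4 : (#((range (x + 1)).filter fun n => n < n0) : ℝ) ≤ n0 := by exact_mod_cast h3
    exact mul_le_mul_of_nonneg_left h4 (by linarith)
  linarith

open Classical in
/-- the count in the model of units -/
noncomputable def cu (b : ℕ) (g : ℕ → ℕ) (x : ℕ) : ℕ :=
  #((Icc 1 x).filter fun n => n ∈ OP ∧ Like b g n)

theorem units_lim {Ω : Type} [MeasurableSpace Ω] (μ : Measure Ω) (hμ : IsProbabilityMeasure μ) (g : ℕ → Ω → ℕ)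
    (hg : L5helper2.RO.Model μ g) : ∀ᵐ ω ∂μ, ∀ b : ℕ, 2 ≤ b →
    Tendsto (fun x : ℕ => (cu b (fun l => g l ω) x : ℝ) / EE 1 OP x) atTop (𝓝 (2 / Real.log b)) := by
  classical
  rw [ae_all_iff]
  intro b
  by_cases hb : 2 ≤ b
  swap
  · exact Filter.Eventually.of_forall fun ω hb' => absurd hb' hb
  have hb1 : (1 : ℝ) < b := by exact_mod_cast (by omega : 1 < b)
  have hlog : 0 < Real.log b := Real.log_pos hb1
  obtain ⟨h1, h2⟩ := L5helper2.RO.PROB_thm b hb Ω _ μ inferInstance g hg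
  have hsum : ∀ x : ℕ, ∑ n ∈ (Icc 1 x).filter (fun n => n ∈ OP), μ.real {ω | Like b (fun l => g l ω) n} =
      ∑ n ∈ range (x + 1), OP.indicator (L5helper2.RO.P b) n := by
    intro x
    rw [sum_filter]
    have e : (range (x + 1)) = insert 0 (Icc 1 x) := by
      ext n
      rw [mem_range, mem_insert, mem_Icc]
      omega
    rw [e, sum_insert (by simp)]
    have h0 : OP.indicator (L5helper2.RO.P b) 0 = 0 := Set.indicator_of_notMem (fun h => Nat.not_prime_zero h.1) _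
    rw [h0, zero_add]
    refine sum_congr rfl fun n _ => ?_
    by_cases hn : n ∈ OP
    · rw [if_pos hn, Set.indicator_of_mem hn, (h1 n hn.1 hn.2).2]
    · rw [if_neg hn, Set.indicator_of_notMem hn]
  have hratio' : Tendsto (fun x : ℕ => (∑ n ∈ range (x + 1), OP.indicator (L5helper2.RO.P b) n) / EE 1 OP x) atTop
      (𝓝 (2 / Real.log b)) := by
    refine sum_ratio _ (fun n hn => P_nonneg' hn.1 hn.2) (fun n hn => (P_le_Qn hn.1 hn.2).trans (Qn_le_one hn.1 hn.2))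
      _ (by positivity) fun ε hε => ?_
    obtain ⟨n0, hn0⟩ := P_ratio hb ε hε
    exact ⟨n0, fun n hn hn' => hn0 n hn hn'.1 hn'.2⟩
  have hdiv : Tendsto (fun x : ℕ => ∑ n ∈ range (x + 1), OP.indicator (L5helper2.RO.P b) n) atTop atTop := by
    have h3 := Filter.Tendsto.pos_mul_atTop (by positivity) hratio' (EE_tendsto one_pos)
    refine h3.congr' ?_
    filter_upwards [(EE_tendsto one_pos).eventually_gt_atTop 0] with x hx
    rw [div_mul_cancel₀ _ hx.ne']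
  have h5 := L5helper2.RO.LAW_thm Ω _ μ inferInstance (fun n => {ω | Like b (fun l => g l ω) n}) OP
    (fun n hn => (h1 n hn.1 hn.2).1)
    (fun n hn m hm hnm => by
      have h7 := h2 n m hn.1 hm.1 hn.2 hm.2 hnm
      rw [← (h1 n hn.1 hn.2).2, ← (h1 m hm.1 hm.2).2] at h7
      exact h7)
    (hdiv.congr fun x => (hsum x).symm)
  filter_upwards [h5] with ω hω _
  have h6 := hω.mul hratio'
  rw [one_mul] at h6
  refine h6.congr' ?_
  filter_upwards [hdiv.eventually_gt_atTop 0] with x hx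
  rw [hsum x]
  change (cu b (fun l => g l ω) x : ℝ) / (∑ n ∈ range (x + 1), OP.indicator (L5helper2.RO.P b) n) *
    ((∑ n ∈ range (x + 1), OP.indicator (L5helper2.RO.P b) n) / EE 1 OP x) = _
  rw [div_mul_div_comm, mul_comm (∑ n ∈ range (x + 1), OP.indicator (L5helper2.RO.P b) n) (EE 1 OP x),
    mul_div_mul_right _ _ hx.ne']

open scoped ENNReal in
/-- the model of units exists (helper2) -/
theorem exists_units : ∃ (Ω : Type) (_ : MeasurableSpace Ω) (μ : Measure Ω) (_ : IsProbabilityMeasure μ)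
    (g : ℕ → Ω → ℕ), L5helper2.RO.Model μ g := by
  classical
  have hne : ∀ l : ℕ, (if l.Prime then Icc 1 (l - 1) else ({0} : Finset ℕ)).Nonempty := by
    intro l
    split_ifs with hl
    · have := hl.two_le
      exact ⟨1, mem_Icc.2 ⟨le_rfl, by omega⟩⟩
    · exact Finset.singleton_nonempty _
  obtain ⟨Ω, mΩ, μ, g, h1, h2, h3, h4⟩ := exists_hasLaw_indepFun (fun _ : ℕ => ℕ)
    (fun l => (PMF.uniformOfFinset _ (hne l)).toMeasure)
  refine ⟨Ω, mΩ, μ, h4, g, h1, h3, ?_⟩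
  intro l hl u hu1 hu2
  have h5 : μ {ω | g l ω = u} = μ.map (g l) {u} := by
    rw [Measure.map_apply (h1 l) (measurableSet_singleton u)]
    rfl
  rw [h5, (h2 l).map_eq, PMF.toMeasure_uniformOfFinset_apply (hne l) {u} (measurableSet_singleton u)]
  have h6 : (if l.Prime then Icc 1 (l - 1) else ({0} : Finset ℕ)) = Icc 1 (l - 1) := if_pos hl
  rw [h6, Nat.card_Icc, div_eq_mul_inv]
  have h7 : l - 1 + 1 - 1 = l - 1 := by omega
  rw [h7]
  convert one_mul _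
  rw [Nat.cast_eq_one, Finset.card_eq_one]
  refine ⟨u, ?_⟩
  ext x
  simp only [Finset.mem_filter, Finset.mem_Icc, Set.mem_singleton_iff, Finset.mem_singleton]
  constructor
  · exact fun h => h.2
  · rintro rfl
    exact ⟨⟨hu1, by omega⟩, rfl⟩

/-- the truth: `g l = -b` (helper2) -/
theorem units_truth (b : ℕ) (hb : 2 ≤ b) (g : ℕ → ℕ) (hg : ∀ l, l.Prime → ((g l : ℕ) : ZMod l) = -(b : ZMod l))
    (n : ℕ) (hn : n.Prime) (hn2 : n ≠ 2) (hnb : ¬ n ∣ b + 1) : Like b g n ↔ (W b n).Prime := by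
  have h1 := L5helper2.RO.TRUE_thm b n hb hn hn2 hnb
  unfold Like
  constructor
  · intro h
    apply h1.2
    intro l hl hl2
    rw [← hg l hl]
    exact h l hl hl2
  · intro h l hl hl2
    rw [hg l hl]
    exact h1.1 h l hl hl2

end Pool.Agent.L5helper86.RB
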